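import Pool.Agent.H282R3.SQ.Defs

/-!
Module Area of project SQ: area, convexity and measurability of a unit square; the area of a
triangle inside a convex set.
-/

namespace H282R3.SQ

open MeasureTheory

/-- the linear map with matrix `(a b; c d)` -/
noncomputable def linM (a b c d : ℝ) : (ℝ × ℝ) →ₗ[ℝ] (ℝ × ℝ) :=
  Matrix.toLin (Module.Basis.finTwoProd ℝ) (Module.Basis.finTwoProd ℝ) !![a, b; c, d]

theorem linM_apply (a b c d : ℝ) (z : ℝ × ℝ) :
    linM a b c d z = (a * z.1 + b * z.2, c * z.1 + d * z.2) := by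
  unfold linM
  rw [Matrix.toLin_finTwoProd_apply]

theorem linM_det (a b c d : ℝ) : LinearMap.det (linM a b c d) = a * d - b * c := by
  unfold linM
  rw [LinearMap.det_toLin, Matrix.det_fin_two_of]

/-- E1 (module Area). -/
theorem volume_C (Q : USq) : volume Q.C = 1 := by
  set L := linM Q.a Q.b (-Q.b) Q.a with hL
  have hdet : LinearMap.det L = 1 := by
    rw [hL, linM_det]; linarith [Q.unit]
  set v : ℝ × ℝ := L (Q.p, Q.q) with hv
  have hC : Q.C = L ⁻¹' ((fun w => w - v) ⁻¹' (Set.Icc (-(1 / 2) : ℝ) (1 / 2) ×ˢ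
      Set.Icc (-(1 / 2) : ℝ) (1 / 2))) := by
    ext z
    simp only [USq.C, Set.mem_ofPred_eq, Set.mem_preimage, Set.mem_prod, Set.mem_Icc, USq.X, USq.Y,
      hv, hL, linM_apply, Prod.fst_sub, Prod.snd_sub, abs_le]
    constructor
    · rintro ⟨⟨h1, h2⟩, h3, h4⟩
      refine ⟨⟨?_, ?_⟩, ?_, ?_⟩ <;> linarith
    · rintro ⟨⟨h1, h2⟩, h3, h4⟩
      refine ⟨⟨?_, ?_⟩, ?_, ?_⟩ <;> linarith
  rw [hC, Measure.addHaar_preimage_linearMap volume (by rw [hdet]; exact one_ne_zero), hdet]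
  have : (fun w : ℝ × ℝ => w - v) ⁻¹' (Set.Icc (-(1 / 2) : ℝ) (1 / 2) ×ˢ
      Set.Icc (-(1 / 2) : ℝ) (1 / 2)) = (fun w : ℝ × ℝ => w + (-v)) ⁻¹'
      (Set.Icc (-(1 / 2) : ℝ) (1 / 2) ×ˢ Set.Icc (-(1 / 2) : ℝ) (1 / 2)) := by
    ext w; simp [sub_eq_add_neg]
  rw [this, measure_preimage_add_right, Measure.volume_eq_prod, Measure.prod_prod,
    Real.volume_Icc]
  norm_num

/-- E2 (module Area). -/
theorem convex_C (Q : USq) : Convex ℝ Q.C := by
  intro x hx y hy s t hs ht hst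
  simp only [USq.C, Set.mem_ofPred_eq, USq.X, USq.Y, abs_le, Prod.fst_add, Prod.snd_add,
    Prod.smul_fst, Prod.smul_snd, smul_eq_mul] at hx hy ⊢
  obtain ⟨⟨a1, a2⟩, a3, a4⟩ := hx
  obtain ⟨⟨b1, b2⟩, b3, b4⟩ := hy
  have e1 : Q.a * (s * x.1 + t * y.1 - Q.p) + Q.b * (s * x.2 + t * y.2 - Q.q) =
      s * (Q.a * (x.1 - Q.p) + Q.b * (x.2 - Q.q)) +
        t * (Q.a * (y.1 - Q.p) + Q.b * (y.2 - Q.q)) := by
    have : t = 1 - s := by linarith
    subst this; ring
  have e2 : -Q.b * (s * x.1 + t * y.1 - Q.p) + Q.a * (s * x.2 + t * y.2 - Q.q) =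
      s * (-Q.b * (x.1 - Q.p) + Q.a * (x.2 - Q.q)) +
        t * (-Q.b * (y.1 - Q.p) + Q.a * (y.2 - Q.q)) := by
    have : t = 1 - s := by linarith
    subst this; ring
  rw [e1, e2]
  refine ⟨⟨?_, ?_⟩, ?_, ?_⟩ <;> nlinarith [mul_le_mul_of_nonneg_left a1 hs,
    mul_le_mul_of_nonneg_left a2 hs, mul_le_mul_of_nonneg_left a3 hs,
    mul_le_mul_of_nonneg_left a4 hs, mul_le_mul_of_nonneg_left b1 ht,
    mul_le_mul_of_nonneg_left b2 ht, mul_le_mul_of_nonneg_left b3 ht,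
    mul_le_mul_of_nonneg_left b4 ht]

/-- E3 (module Area). -/
theorem measurableSet_C (Q : USq) : MeasurableSet Q.C := by
  apply IsClosed.measurableSet
  have : Q.C = {z | |Q.X z| ≤ 1 / 2} ∩ {z | |Q.Y z| ≤ 1 / 2} := rfl
  rw [this]
  apply IsClosed.inter
  · apply isClosed_le _ continuous_const
    unfold USq.X; fun_prop
  · apply isClosed_le _ continuous_const
    unfold USq.Y; fun_prop

/-- E4 (module Area). -/
theorem tri_area (S : Set (ℝ × ℝ)) (hS : Convex ℝ S) (hfin : volume S ≠ ⊤)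
    (z1 z2 z3 : ℝ × ℝ) (h1 : z1 ∈ S) (h2 : z2 ∈ S) (h3 : z3 ∈ S) :
    |det3 z1 z2 z3| ≤ 4 * (volume S).toReal := by
  set L := linM (z2.1 - z1.1) (z3.1 - z1.1) (z2.2 - z1.2) (z3.2 - z1.2) with hL
  have hdet : LinearMap.det L = det3 z1 z2 z3 := by
    rw [hL, linM_det, det3]; ring
  set B : Set (ℝ × ℝ) := Set.Icc (0 : ℝ) (1 / 2) ×ˢ Set.Icc (0 : ℝ) (1 / 2) with hB
  have hsub : (fun w : ℝ × ℝ => w + z1) '' (L '' B) ⊆ S := by
    rintro _ ⟨_, ⟨⟨s, t⟩, ⟨hs, ht⟩, rfl⟩, rfl⟩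
    simp only [Set.mem_Icc] at hs ht
    have hconv := hS
    have e : L (s, t) + z1 = (1 - s - t) • z1 + s • z2 + t • z3 := by
      rw [hL, linM_apply]
      ext
      · simp only [Prod.fst_add, Prod.smul_fst, smul_eq_mul]; ring
      · simp only [Prod.snd_add, Prod.smul_snd, smul_eq_mul]; ring
    show L (s, t) + z1 ∈ S
    rw [e]
    have := hS.sum_mem (t := Finset.univ) (w := ![1 - s - t, s, t]) (z := ![z1, z2, z3])
      (by intro i _; fin_cases i <;> simp <;> linarith [hs.1, hs.2, ht.1, ht.2])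
      (by simp [Fin.sum_univ_three]; ring)
      (by intro i _; fin_cases i <;> simpa)
    simpa [Fin.sum_univ_three] using this
  have hvol : volume ((fun w : ℝ × ℝ => w + z1) '' (L '' B)) =
      ENNReal.ofReal (|det3 z1 z2 z3| / 4) := by
    have : (fun w : ℝ × ℝ => w + z1) '' (L '' B) = (fun w : ℝ × ℝ => w + (-z1)) ⁻¹' (L '' B) := by
      ext w
      simp only [Set.mem_image, Set.mem_preimage]
      constructor
      · rintro ⟨_, ⟨x, hx, rfl⟩, rfl⟩
        exact ⟨x, hx, by simp⟩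
      · rintro ⟨x, hx, hxw⟩
        exact ⟨L x, ⟨x, hx, rfl⟩, by rw [hxw]; simp⟩
    rw [this, measure_preimage_add_right, Measure.addHaar_image_linearMap, hdet, hB,
      Measure.volume_eq_prod, Measure.prod_prod, Real.volume_Icc,
      ← ENNReal.ofReal_mul (by norm_num), ← ENNReal.ofReal_mul (abs_nonneg _)]
    congr 1
    ring
  have hle := measure_mono (μ := volume) hsub
  rw [hvol] at hle
  have := ENNReal.toReal_mono hfin hle
  rw [ENNReal.toReal_ofReal (by positivity)] at this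
  linarith

end H282R3.SQ
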