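import Pool.Agent.H282R3.SQ.Defs

/-! Module CentreFree: a point within distance `1/4` of the centre of `A` is in no other square. -/

namespace H282R3.SQ

open MeasureTheory

theorem mem_C_of_near (A : USq) (z : ℝ × ℝ)
    (hz : (z.1 - A.p) ^ 2 + (z.2 - A.q) ^ 2 ≤ 1 / 4) : z ∈ A.C := by
  have hX : (A.X z) ^ 2 + (A.Y z) ^ 2 = (z.1 - A.p) ^ 2 + (z.2 - A.q) ^ 2 := by
    unfold USq.X USq.Y
    have := A.unit
    linear_combination ((z.1 - A.p) ^ 2 + (z.2 - A.q) ^ 2) * this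
  constructor
  · apply abs_le_of_sq_le_sq _ (by norm_num)
    nlinarith [sq_nonneg (A.Y z)]
  · apply abs_le_of_sq_le_sq _ (by norm_num)
    nlinarith [sq_nonneg (A.X z)]

theorem near_shift (A : USq) (x : ℝ × ℝ) (u v e : ℝ) (huv : u ^ 2 + v ^ 2 = 1)
    (he : e ^ 2 = 1 / 16)
    (hx : (x.1 - A.p) ^ 2 + (x.2 - A.q) ^ 2 ≤ 1 / 16) :
    (x.1 + e * u, x.2 + e * v) ∈ A.C := by
  apply mem_C_of_near
  show (x.1 + e * u - A.p) ^ 2 + (x.2 + e * v - A.q) ^ 2 ≤ 1 / 4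
  have h1 : (u * (x.1 - A.p) + v * (x.2 - A.q)) ^ 2 ≤ 1 / 16 := by
    have : (u * (x.1 - A.p) + v * (x.2 - A.q)) ^ 2 + (v * (x.1 - A.p) - u * (x.2 - A.q)) ^ 2
        = (x.1 - A.p) ^ 2 + (x.2 - A.q) ^ 2 := by
      linear_combination ((x.1 - A.p) ^ 2 + (x.2 - A.q) ^ 2) * huv
    nlinarith [sq_nonneg (v * (x.1 - A.p) - u * (x.2 - A.q))]
  have h2 : 2 * (e * (u * (x.1 - A.p) + v * (x.2 - A.q))) ≤ 1 / 8 := by
    nlinarith [sq_nonneg (e - (u * (x.1 - A.p) + v * (x.2 - A.q)))]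
  have h3 : (x.1 + e * u - A.p) ^ 2 + (x.2 + e * v - A.q) ^ 2
      = ((x.1 - A.p) ^ 2 + (x.2 - A.q) ^ 2)
        + 2 * (e * (u * (x.1 - A.p) + v * (x.2 - A.q))) + e ^ 2 := by
    linear_combination e ^ 2 * huv
  rw [h3, he]
  linarith

/-- C1 (module CentreFree). A point within distance `1/4` of the centre of `A` is in no other
square. -/
theorem centre_free (A B : USq) (τ : ℝ) (hτ0 : 0 ≤ τ) (hτ : τ < 1 / 16)
    (htri : ∀ z1 z2 z3 : ℝ × ℝ, z1 ∈ A.C ∩ B.C → z2 ∈ A.C ∩ B.C → z3 ∈ A.C ∩ B.C →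
      |det3 z1 z2 z3| ≤ τ)
    (x : ℝ × ℝ) (hx : (x.1 - A.p) ^ 2 + (x.2 - A.q) ^ 2 ≤ 1 / 16) : x ∉ B.C := by
  intro hxB
  have hsgn : ∀ t : ℝ, |t| ≤ 1 / 2 → ∃ e : ℝ, e ^ 2 = 1 / 16 ∧ |t + e| ≤ 1 / 2 := by
    intro t ht
    rw [abs_le] at ht
    rcases le_total t 0 with h | h
    · refine ⟨1 / 4, by norm_num, ?_⟩
      rw [abs_le]; constructor <;> linarith
    · refine ⟨-(1 / 4), by norm_num, ?_⟩
      rw [abs_le]; constructor <;> linarith
  obtain ⟨e1, he1, h1⟩ := hsgn (B.X x) hxB.1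
  obtain ⟨e2, he2, h2⟩ := hsgn (B.Y x) hxB.2
  have hu := B.unit
  have hA2 : (x.1 + e1 * B.a, x.2 + e1 * B.b) ∈ A.C :=
    near_shift A x B.a B.b e1 hu he1 hx
  have hA3 : (x.1 + e2 * (-B.b), x.2 + e2 * B.a) ∈ A.C :=
    near_shift A x (-B.b) B.a e2 (by linarith [hu, neg_sq B.b]) he2 hx
  have hB2 : (x.1 + e1 * B.a, x.2 + e1 * B.b) ∈ B.C := by
    constructor
    · have : B.X (x.1 + e1 * B.a, x.2 + e1 * B.b) = B.X x + e1 := by
        unfold USq.X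
        simp only
        linear_combination e1 * hu
      rw [this]; exact h1
    · have : B.Y (x.1 + e1 * B.a, x.2 + e1 * B.b) = B.Y x := by
        unfold USq.Y
        simp only
        ring
      rw [this]; exact hxB.2
  have hB3 : (x.1 + e2 * (-B.b), x.2 + e2 * B.a) ∈ B.C := by
    constructor
    · have : B.X (x.1 + e2 * (-B.b), x.2 + e2 * B.a) = B.X x := by
        unfold USq.X
        simp only
        ring
      rw [this]; exact hxB.1
    · have : B.Y (x.1 + e2 * (-B.b), x.2 + e2 * B.a) = B.Y x + e2 := by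
        unfold USq.Y
        simp only
        linear_combination e2 * hu
      rw [this]; exact h2
  have hA1 : x ∈ A.C := mem_C_of_near A x (by linarith)
  have ht := htri x _ _ ⟨hA1, hxB⟩ ⟨hA2, hB2⟩ ⟨hA3, hB3⟩
  have hd : det3 x (x.1 + e1 * B.a, x.2 + e1 * B.b) (x.1 + e2 * (-B.b), x.2 + e2 * B.a)
      = e1 * e2 := by
    unfold det3
    simp only
    linear_combination (e1 * e2) * hu
  rw [hd] at ht
  have h16 : |e1 * e2| = 1 / 16 := by
    have : |e1 * e2| ^ 2 = (1 / 16) ^ 2 := by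
      rw [sq_abs, mul_pow, he1, he2]; norm_num
    nlinarith [abs_nonneg (e1 * e2)]
  linarith

end H282R3.SQ
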