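import Pool.Agent.H282R3.SQ.Defs

/-! Module Chord (task A of `h282_tasks`), by helper998. -/

namespace H282R3.SQ

open MeasureTheory

/-- Length of the intersection of two intervals. -/
private lemma vol_inter_le (S : Set ℝ) (c1 r1 c2 r2 : ℝ)
    (h1 : ∀ x ∈ S, |x - c1| < r1) (h2 : ∀ x ∈ S, |x - c2| < r2) :
    (volume S).toReal ≤ max 0 (min (2 * r1) (min (2 * r2) (r1 + r2 - |c1 - c2|))) := by
  have hsub : S ⊆ Set.Ioo (max (c1 - r1) (c2 - r2)) (min (c1 + r1) (c2 + r2)) := by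
    intro x hx
    have a1 := abs_lt.1 (h1 x hx)
    have a2 := abs_lt.1 (h2 x hx)
    simp only [Set.mem_Ioo, max_lt_iff, lt_min_iff]
    refine ⟨⟨by linarith, by linarith⟩, by linarith, by linarith⟩
  have hv : (volume S).toReal ≤ (volume (Set.Ioo (max (c1 - r1) (c2 - r2)) (min (c1 + r1) (c2 + r2)))).toReal :=
    ENNReal.toReal_mono (by rw [Real.volume_Ioo]; exact ENNReal.ofReal_ne_top) (measure_mono hsub)
  refine hv.trans ?_
  rw [Real.volume_Ioo, ENNReal.toReal_ofReal']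
  rw [max_comm]
  apply max_le_max le_rfl
  have e1 := le_max_left (c1 - r1) (c2 - r2)
  have e2 := le_max_right (c1 - r1) (c2 - r2)
  have e3 := min_le_left (c1 + r1) (c2 + r2)
  have e4 := min_le_right (c1 + r1) (c2 + r2)
  refine le_min (by linarith) (le_min (by linarith) ?_)
  rcases abs_cases (c1 - c2) with ⟨h, _⟩ | ⟨h, _⟩ <;> rw [h] <;> linarith

/-- Summation over the integers of a function that vanishes at distance `≥ 1` from `q`. -/
private lemma sum_two (q : ℝ) (n : ℕ) (c F : ℝ → ℝ) (hF : ∀ u, 0 ≤ F u)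
    (hF1 : ∀ u, 1 ≤ u → F u = 0) (hc : ∀ y, c y ≤ F |y - q|) :
    ∑ j ∈ Finset.range (n + 1), c (j : ℝ) ≤ F (Int.fract q) + F (1 - Int.fract q) := by
  have hfr0 := Int.fract_nonneg q
  have hfr1 := Int.fract_lt_one q
  have h1 : ∑ j ∈ Finset.range (n + 1), c (j : ℝ)
      ≤ ∑ j ∈ Finset.range (n + 1), F |(j : ℝ) - q| := Finset.sum_le_sum fun j _ => hc _
  have h2 : ∑ j ∈ Finset.range (n + 1), F |(j : ℝ) - q|
      = ∑ j ∈ (Finset.range (n + 1)).map ⟨fun j : ℕ => (j : ℤ), Nat.cast_injective⟩,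
          F |(j : ℝ) - q| := by
    rw [Finset.sum_map]; simp
  have h3 : ∑ j ∈ (Finset.range (n + 1)).map ⟨fun j : ℕ => (j : ℤ), Nat.cast_injective⟩,
          F |((j : ℤ) : ℝ) - q| ≤ ∑ j ∈ ({⌊q⌋, ⌊q⌋ + 1} : Finset ℤ), F |((j : ℤ) : ℝ) - q| := by
    have hz : ∀ j : ℤ, j ∉ ({⌊q⌋, ⌊q⌋ + 1} : Finset ℤ) → F |(j : ℝ) - q| = 0 := by
      intro j hj
      simp only [Finset.mem_insert, Finset.mem_singleton, not_or] at hj
      apply hF1
      have hq : (⌊q⌋ : ℝ) + Int.fract q = q := Int.floor_add_fract q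
      rcases lt_or_ge j ⌊q⌋ with h | h
      · have : (j : ℝ) ≤ ⌊q⌋ - 1 := by
          have : j ≤ ⌊q⌋ - 1 := by omega
          exact_mod_cast this
        rw [abs_of_nonpos (by linarith)]
        linarith
      · have : (⌊q⌋ : ℝ) + 2 ≤ j := by
          have : ⌊q⌋ + 2 ≤ j := by omega
          exact_mod_cast this
        rw [abs_of_nonneg (by linarith)]
        linarith
    calc _ = ∑ j ∈ ((Finset.range (n + 1)).map ⟨fun j : ℕ => (j : ℤ), Nat.cast_injective⟩).filter
            (fun j => j ∈ ({⌊q⌋, ⌊q⌋ + 1} : Finset ℤ)), F |((j : ℤ) : ℝ) - q| := by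
          symm
          apply Finset.sum_filter_of_ne
          intro j _ hj
          by_contra h
          exact hj (hz j h)
      _ ≤ _ := by
          apply Finset.sum_le_sum_of_subset_of_nonneg
          · intro j hj
            exact (Finset.mem_filter.1 hj).2
          · intro j _ _
            exact hF _
  refine h1.trans (h2.le.trans (h3.trans ?_))
  rw [Finset.sum_pair (by omega)]
  have hq : (⌊q⌋ : ℝ) + Int.fract q = q := Int.floor_add_fract q
  have e1 : |(⌊q⌋ : ℝ) - q| = Int.fract q := by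
    rw [abs_of_nonpos (by linarith)]; linarith
  have e2 : |((⌊q⌋ + 1 : ℤ) : ℝ) - q| = 1 - Int.fract q := by
    push_cast
    rw [abs_of_nonneg (by linarith)]; linarith
  rw [e1, e2]

/-- the numerical inequality `1 / max(A,B) ≤ 1 + 2 (AB)^2` -/
private lemma num1 (A B : ℝ) (hA : 0 < A) (hB : 0 ≤ B) (h : A ^ 2 + B ^ 2 = 1) (hBA : B ≤ A) :
    1 / A ≤ 1 + 2 * (A * B) ^ 2 := by
  rw [div_le_iff₀ hA]
  have h1 : A ≤ 1 := by nlinarith
  have h2 : 1 / 2 ≤ A ^ 2 := by nlinarith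
  have h3 : 0.7 ≤ A := by nlinarith
  have h4 : B ^ 2 = 1 - A ^ 2 := by linarith
  have h5 : (A * B) ^ 2 = A ^ 2 * (1 - A ^ 2) := by rw [mul_pow, h4]
  rw [h5]
  have h6 : 0 ≤ 2 * A ^ 3 + 2 * A ^ 4 - 1 := by
    have : 0.35 ≤ A ^ 3 := by nlinarith
    have : 0.25 ≤ A ^ 4 := by nlinarith
    linarith
  nlinarith [mul_nonneg (sub_nonneg.2 h1) h6]

private lemma num2 (A B : ℝ) (hA : 0 < A) (hB : 0 < B) (h : A ^ 2 + B ^ 2 = 1) (hBA : B ≤ A) :
    (A + B - 1) / (A * B) ≤ 1 / A := by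
  have h1 : A ≤ 1 := by nlinarith
  rw [div_le_div_iff₀ (mul_pos hA hB) hA]
  nlinarith

/-- the sum of two values of the profile, for `B ≤ A` -/
private lemma two_vals (A B t : ℝ) (hA : 0 < A) (hB : 0 < B) (h : A ^ 2 + B ^ 2 = 1) (hBA : B ≤ A) :
    max 0 (min (1 / A) (((A + B) / 2 - t) / (A * B))) +
      max 0 (min (1 / A) (((A + B) / 2 - (1 - t)) / (A * B))) ≤ 1 / A := by
  have hA' : 0 < 1 / A := by positivity
  have key := num2 A B hA hB h hBA
  have e : ((A + B) / 2 - t) / (A * B) + ((A + B) / 2 - (1 - t)) / (A * B) = (A + B - 1) / (A * B) := by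
    rw [← add_div]; congr 1; ring
  rcases le_total (min (1 / A) (((A + B) / 2 - t) / (A * B))) 0 with h1 | h1
  · rw [max_eq_left h1]
    rw [zero_add]
    exact max_le hA'.le (min_le_left _ _)
  · rw [max_eq_right h1]
    rcases le_total (min (1 / A) (((A + B) / 2 - (1 - t)) / (A * B))) 0 with h2 | h2
    · rw [max_eq_left h2, add_zero]
      exact min_le_left _ _
    · rw [max_eq_right h2]
      have g1 := min_le_right (1 / A) (((A + B) / 2 - t) / (A * B))
      have g2 := min_le_right (1 / A) (((A + B) / 2 - (1 - t)) / (A * B))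
      linarith

/-- the chord bound in the generic case -/
private lemma chord_gen (Q : USq) (ha : Q.a ≠ 0) (hb : Q.b ≠ 0) (y : ℝ) :
    (volume {x : ℝ | (x, y) ∈ Q.O}).toReal ≤
      max 0 (min (1 / |Q.a|) (min (1 / |Q.b|)
        (((|Q.a| + |Q.b|) / 2 - |y - Q.q|) / (|Q.a| * |Q.b|)))) := by
  have ha' : 0 < |Q.a| := abs_pos.2 ha
  have hb' : 0 < |Q.b| := abs_pos.2 hb
  have hA2 : |Q.a| ^ 2 = Q.a ^ 2 := sq_abs _
  have hB2 : |Q.b| ^ 2 = Q.b ^ 2 := sq_abs _
  have h := vol_inter_le {x : ℝ | (x, y) ∈ Q.O} (Q.p - Q.b * (y - Q.q) / Q.a) (1 / (2 * |Q.a|))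
    (Q.p + Q.a * (y - Q.q) / Q.b) (1 / (2 * |Q.b|)) ?_ ?_
  · refine h.trans (le_of_eq ?_)
    have e1 : 2 * (1 / (2 * |Q.a|)) = 1 / |Q.a| := by field_simp
    have e2 : 2 * (1 / (2 * |Q.b|)) = 1 / |Q.b| := by field_simp
    have e3 : Q.p - Q.b * (y - Q.q) / Q.a - (Q.p + Q.a * (y - Q.q) / Q.b)
        = - ((y - Q.q) / (Q.a * Q.b)) := by
      have hu := Q.unit
      field_simp
      linear_combination (-(y - Q.q)) * hu
    have e4 : 1 / (2 * |Q.a|) + 1 / (2 * |Q.b|)
        - |Q.p - Q.b * (y - Q.q) / Q.a - (Q.p + Q.a * (y - Q.q) / Q.b)|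
        = ((|Q.a| + |Q.b|) / 2 - |y - Q.q|) / (|Q.a| * |Q.b|) := by
      rw [e3, abs_neg, abs_div, abs_mul]
      field_simp
      ring
    rw [e1, e2, e4]
  · intro x hx
    have hx1 : |Q.a * (x - Q.p) + Q.b * (y - Q.q)| < 1 / 2 := hx.1
    have : x - (Q.p - Q.b * (y - Q.q) / Q.a) = (Q.a * (x - Q.p) + Q.b * (y - Q.q)) / Q.a := by
      field_simp
      ring
    rw [this, abs_div, div_lt_div_iff₀ ha' (by positivity)]
    nlinarith
  · intro x hx
    have hx2 : |-Q.b * (x - Q.p) + Q.a * (y - Q.q)| < 1 / 2 := hx.2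
    have : x - (Q.p + Q.a * (y - Q.q) / Q.b) = -((-Q.b * (x - Q.p) + Q.a * (y - Q.q)) / Q.b) := by
      field_simp
      ring
    rw [this, abs_neg, abs_div, div_lt_div_iff₀ hb' (by positivity)]
    nlinarith

/-- the chord bound in the axis-parallel case -/
private lemma chord_axis (Q : USq) (hab : Q.a * Q.b = 0) (y : ℝ) :
    (volume {x : ℝ | (x, y) ∈ Q.O}).toReal ≤ if |y - Q.q| < 1 / 2 then 1 else 0 := by
  have key : ∀ x, (x, y) ∈ Q.O → |x - Q.p| < 1 / 2 ∧ |y - Q.q| < 1 / 2 := by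
    intro x hx
    have hx1 : |Q.a * (x - Q.p) + Q.b * (y - Q.q)| < 1 / 2 := hx.1
    have hx2 : |-Q.b * (x - Q.p) + Q.a * (y - Q.q)| < 1 / 2 := hx.2
    have hu := Q.unit
    rcases mul_eq_zero.1 hab with h | h
    · have hb : |Q.b| = 1 := by
        rw [h] at hu
        have : |Q.b| ^ 2 = 1 := by rw [sq_abs]; linarith
        nlinarith [abs_nonneg Q.b]
      rw [h] at hx1 hx2
      simp only [zero_mul, zero_add, add_zero, abs_mul, abs_neg, hb, one_mul] at hx1 hx2
      exact ⟨hx2, hx1⟩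
    · have ha : |Q.a| = 1 := by
        rw [h] at hu
        have : |Q.a| ^ 2 = 1 := by rw [sq_abs]; linarith
        nlinarith [abs_nonneg Q.a]
      rw [h] at hx1 hx2
      simp only [zero_mul, zero_add, add_zero, abs_mul, neg_zero, ha, one_mul] at hx1 hx2
      exact ⟨hx1, hx2⟩
  split_ifs with hy
  · have h := vol_inter_le {x : ℝ | (x, y) ∈ Q.O} Q.p (1 / 2) Q.p (1 / 2)
      (fun x hx => (key x hx).1) (fun x hx => (key x hx).1)
    refine h.trans (max_le (by norm_num) ?_)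
    refine (min_le_left _ _).trans (by norm_num)
  · have : {x : ℝ | (x, y) ∈ Q.O} = ∅ := by
      ext x
      simp only [Set.mem_setOf_eq, Set.mem_empty_iff_false, iff_false]
      intro hx
      exact hy (key x hx).2
    rw [this]
    simp

/-- A1 (module Chord). -/
theorem chord_sum (Q : USq) (n : ℕ) :
    ∑ j ∈ Finset.range (n + 1), (volume {x : ℝ | (x, (j : ℝ)) ∈ Q.O}).toReal ≤ 1 + 2 * Q.g ^ 2 := by
  have hu := Q.unit
  by_cases hab : Q.a * Q.b = 0
  · have h := sum_two Q.q n (fun y => (volume {x : ℝ | (x, y) ∈ Q.O}).toReal)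
      (fun u => if u < 1 / 2 then 1 else 0) (fun u => by split_ifs <;> norm_num)
      (fun u hu => by rw [if_neg (by linarith)]) (fun y => chord_axis Q hab y)
    refine h.trans ?_
    have : (if Int.fract Q.q < 1 / 2 then (1 : ℝ) else 0) + (if 1 - Int.fract Q.q < 1 / 2 then (1 : ℝ) else 0) ≤ 1 := by
      split_ifs <;> linarith
    have h2 : 0 ≤ 2 * Q.g ^ 2 := by positivity
    linarith
  · have ha : Q.a ≠ 0 := fun h => hab (by rw [h, zero_mul])
    have hb : Q.b ≠ 0 := fun h => hab (by rw [h, mul_zero])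
    have ha' : 0 < |Q.a| := abs_pos.2 ha
    have hb' : 0 < |Q.b| := abs_pos.2 hb
    have hA2 : |Q.a| ^ 2 = Q.a ^ 2 := sq_abs _
    have hB2 : |Q.b| ^ 2 = Q.b ^ 2 := sq_abs _
    have hab1 : |Q.a| + |Q.b| < 2 := by nlinarith [sq_nonneg (|Q.a| - |Q.b|)]
    have hg : Q.g = |Q.a| * |Q.b| := abs_mul _ _
    have main : ∀ A B : ℝ, 0 < A → 0 < B → A ^ 2 + B ^ 2 = 1 → B ≤ A →
        (∀ y, (volume {x : ℝ | (x, y) ∈ Q.O}).toReal ≤
          max 0 (min (1 / A) (((A + B) / 2 - |y - Q.q|) / (A * B)))) →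
        ∑ j ∈ Finset.range (n + 1), (volume {x : ℝ | (x, (j : ℝ)) ∈ Q.O}).toReal ≤ 1 + 2 * (A * B) ^ 2 := by
      intro A B hA hB h hBA hc
      have hAB : A + B < 2 := by nlinarith [sq_nonneg (A - B)]
      have h1 := sum_two Q.q n (fun y => (volume {x : ℝ | (x, y) ∈ Q.O}).toReal)
        (fun u => max 0 (min (1 / A) (((A + B) / 2 - u) / (A * B))))
        (fun u => le_max_left _ _)
        (fun u hu => by
          apply max_eq_left
          refine (min_le_right _ _).trans ?_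
          apply div_nonpos_of_nonpos_of_nonneg
          · linarith
          · positivity) hc
      exact h1.trans ((two_vals A B _ hA hB h hBA).trans (num1 A B hA hB.le h hBA))
    rcases le_total |Q.b| |Q.a| with hBA | hAB
    · have := main |Q.a| |Q.b| ha' hb' (by rw [hA2, hB2]; exact hu) hBA (fun y => ?_)
      · rw [hg]; exact this
      · refine (chord_gen Q ha hb y).trans (max_le_max le_rfl (min_le_min le_rfl (min_le_right _ _)))
    · have := main |Q.b| |Q.a| hb' ha' (by rw [hA2, hB2]; linarith) hAB (fun y => ?_)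
      · rw [hg, mul_comm |Q.a|]; exact this
      · refine (chord_gen Q ha hb y).trans (max_le_max le_rfl ?_)
        refine (min_le_right _ _).trans (min_le_min le_rfl (le_of_eq ?_))
        rw [add_comm |Q.b|, mul_comm |Q.b|]

end H282R3.SQ
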