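import Pool.Agent.H282R3.SQ.CentreFree

/-! Task C2 (helper153): the contact lemma. -/

namespace H282R3.SQ

open MeasureTheory Set

theorem continuous_X (Q : USq) : Continuous Q.X := by
  unfold USq.X; fun_prop

theorem continuous_Y (Q : USq) : Continuous Q.Y := by
  unfold USq.Y; fun_prop

theorem isClosed_C (Q : USq) : IsClosed Q.C := by
  unfold USq.C
  exact (isClosed_le (continuous_X Q).abs continuous_const).inter
    (isClosed_le (continuous_Y Q).abs continuous_const)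

theorem isOpen_O (Q : USq) : IsOpen Q.O := by
  unfold USq.O
  exact (isOpen_lt (continuous_X Q).abs continuous_const).inter
    (isOpen_lt (continuous_Y Q).abs continuous_const)

theorem O_subset_C (Q : USq) : Q.O ⊆ Q.C := fun _ h => ⟨le_of_lt h.1, le_of_lt h.2⟩

theorem rot_X (Q : USq) (z : ℝ × ℝ) : Q.rot.X z = Q.Y z := by
  simp only [USq.rot, USq.X, USq.Y]

theorem rot_Y (Q : USq) (z : ℝ × ℝ) : Q.rot.Y z = -Q.X z := by
  simp only [USq.rot, USq.X, USq.Y]; ring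

/-- a boundary point lies on one of the four sides -/
theorem exists_side (Q : USq) (z : ℝ × ℝ) (hC : z ∈ Q.C) (hO : z ∉ Q.O) :
    ∃ σ : Fin 4, (USq.rot^[(σ : ℕ)] Q).X z = 1 / 2 := by
  have h : |Q.X z| = 1 / 2 ∨ |Q.Y z| = 1 / 2 := by
    by_contra hcon
    push Not at hcon
    exact hO ⟨lt_of_le_of_ne hC.1 hcon.1, lt_of_le_of_ne hC.2 hcon.2⟩
  rcases h with h | h
  · rcases (abs_eq (by norm_num : (0 : ℝ) ≤ 1 / 2)).1 h with h | h
    · exact ⟨0, h⟩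
    · refine ⟨2, ?_⟩
      show (Q.rot.rot).X z = 1 / 2
      rw [rot_X, rot_Y, h]; norm_num
  · rcases (abs_eq (by norm_num : (0 : ℝ) ≤ 1 / 2)).1 h with h | h
    · refine ⟨1, ?_⟩
      show (Q.rot).X z = 1 / 2
      rw [rot_X, h]
    · refine ⟨3, ?_⟩
      show (Q.rot.rot.rot).X z = 1 / 2
      rw [rot_X, rot_Y, rot_X, h]; norm_num

/-- C2 (module Contact). The contact lemma. -/
theorem contact {ι : Type*} [Fintype ι] (F : ι → USq) (S : Set (ℝ × ℝ)) (hS : Convex ℝ S)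
    (hcov : ∀ x ∈ S, ∃ i, x ∈ (F i).C) (τ : ℝ) (hτ0 : 0 ≤ τ) (hτ : τ < 1 / 16)
    (htri : ∀ i j, i ≠ j → ∀ z1 z2 z3 : ℝ × ℝ, z1 ∈ (F i).C ∩ (F j).C →
      z2 ∈ (F i).C ∩ (F j).C → z3 ∈ (F i).C ∩ (F j).C → |det3 z1 z2 z3| ≤ τ)
    (T : Set ι) (A B : ι) (hA : A ∈ T) (hB : B ∉ T) (hAS : (F A).C ⊆ S) (hBS : (F B).C ⊆ S)
    (v : ℝ × ℝ) (hv : v.1 ^ 2 + v.2 ^ 2 = 1)
    (hperp : v.1 * ((F B).p - (F A).p) + v.2 * ((F B).q - (F A).q) = 0)
    (s : ℝ) (hs : |s| ≤ 1 / 4) :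
    ∃ i ∈ T, ∃ j ∉ T, ∃ σ : Fin 4, ∃ z : ℝ × ℝ, z ∈ (F i).C ∧ z ∈ (F j).C ∧
      (USq.rot^[(σ : ℕ)] (F j)).X z = 1 / 2 ∧
      v.1 * (z.1 - (F A).p) + v.2 * (z.2 - (F A).q) = s := by
  classical
  have hs2 : s ^ 2 ≤ 1 / 16 := by
    rw [abs_le] at hs; nlinarith [hs.1, hs.2]
  set γ : ℝ → ℝ × ℝ := fun t =>
    ((F A).p + t * ((F B).p - (F A).p) + s * v.1, (F A).q + t * ((F B).q - (F A).q) + s * v.2)
    with hγ
  have hcont : Continuous γ := by rw [hγ]; fun_prop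
  have hd0 : ((γ 0).1 - (F A).p) ^ 2 + ((γ 0).2 - (F A).q) ^ 2 ≤ 1 / 16 := by
    have : ((γ 0).1 - (F A).p) ^ 2 + ((γ 0).2 - (F A).q) ^ 2 = s ^ 2 := by
      simp only [hγ]; linear_combination s ^ 2 * hv
    rw [this]; exact hs2
  have hd1 : ((γ 1).1 - (F B).p) ^ 2 + ((γ 1).2 - (F B).q) ^ 2 ≤ 1 / 16 := by
    have : ((γ 1).1 - (F B).p) ^ 2 + ((γ 1).2 - (F B).q) ^ 2 = s ^ 2 := by
      simp only [hγ]; linear_combination s ^ 2 * hv
    rw [this]; exact hs2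
  have h0S : γ 0 ∈ S := hAS (mem_C_of_near _ _ (by linarith))
  have h1B : γ 1 ∈ (F B).C := mem_C_of_near _ _ (by linarith)
  have h1S : γ 1 ∈ S := hBS h1B
  have hγS : ∀ t ∈ Icc (0 : ℝ) 1, γ t ∈ S := by
    intro t ht
    have : γ t = (1 - t) • γ 0 + t • γ 1 := by
      simp only [hγ, Prod.smul_mk, Prod.mk_add_mk, smul_eq_mul]
      refine Prod.ext ?_ ?_ <;> simp only <;> ring
    rw [this]
    exact hS h0S h1S (by linarith [ht.2]) ht.1 (by ring)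
  -- the set of bad parameters
  set U : Set ℝ := Icc (0 : ℝ) 1 ∩ ⋃ j ∈ {j : ι | j ∉ T}, γ ⁻¹' (F j).C with hU
  have hUclosed : IsClosed U := by
    apply isClosed_Icc.inter
    apply (Set.toFinite _).isClosed_biUnion
    intro j _
    exact (isClosed_C _).preimage hcont
  have hUne : U.Nonempty := by
    refine ⟨1, ⟨by norm_num, by norm_num⟩, ?_⟩
    simp only [mem_iUnion, mem_preimage]
    exact ⟨B, hB, h1B⟩
  have hUbdd : BddBelow U := ⟨0, fun t ht => ht.1.1⟩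
  set t0 := sInf U with ht0
  have ht0U : t0 ∈ U := hUclosed.csInf_mem hUne hUbdd
  obtain ⟨ht01, hj⟩ := ht0U
  simp only [mem_iUnion, mem_preimage] at hj
  obtain ⟨j, hjT, hj⟩ := hj
  have hjT' : j ∉ T := hjT
  have ht0pos : 0 < t0 := by
    rcases lt_or_eq_of_le ht01.1 with h | h
    · exact h
    · exfalso
      rw [← h] at hj
      have hne : A ≠ j := fun e => hjT' (e ▸ hA)
      exact centre_free (F A) (F j) τ hτ0 hτ (htri A j hne) (γ 0) hd0 hj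
  have hclos : t0 ∈ closure (Ico 0 t0) := by
    rw [closure_Ico ht0pos.ne]
    exact ⟨ht0pos.le, le_refl _⟩
  have hnot : ∀ t ∈ Ico 0 t0, ∀ k ∉ T, γ t ∉ (F k).C := by
    intro t ht k hk hmem
    have : t ∈ U := by
      refine ⟨⟨ht.1, le_trans ht.2.le ht01.2⟩, ?_⟩
      simp only [mem_iUnion, mem_preimage]
      exact ⟨k, hk, hmem⟩
    exact absurd (csInf_le hUbdd this) (not_le.2 ht.2)
  -- the good set
  have hV : t0 ∈ ⋃ i ∈ T, γ ⁻¹' (F i).C := by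
    have hVclosed : IsClosed (⋃ i ∈ T, γ ⁻¹' (F i).C) := by
      apply (Set.toFinite _).isClosed_biUnion
      intro i _
      exact (isClosed_C _).preimage hcont
    apply hVclosed.closure_subset_iff.2 _ hclos
    intro t ht
    obtain ⟨i, hi⟩ := hcov (γ t) (hγS t ⟨ht.1, le_trans ht.2.le ht01.2⟩)
    simp only [mem_iUnion, mem_preimage]
    refine ⟨i, ?_, hi⟩
    by_contra hiT
    exact hnot t ht i hiT hi
  simp only [mem_iUnion, mem_preimage] at hV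
  obtain ⟨i, hiT, hi⟩ := hV
  have hjO : γ t0 ∉ (F j).O := by
    intro hO
    have hopen : IsOpen (γ ⁻¹' (F j).O) := (isOpen_O _).preimage hcont
    obtain ⟨t, ht, ht'⟩ := mem_closure_iff.1 hclos _ hopen hO
    exact hnot t ht' j hjT' (O_subset_C _ ht)
  obtain ⟨σ, hσ⟩ := exists_side (F j) (γ t0) hj hjO
  refine ⟨i, hiT, j, hjT', σ, γ t0, hi, hj, hσ, ?_⟩
  simp only [hγ]
  linear_combination t0 * hperp + s * hv

end H282R3.SQ
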