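import Pool.Agent.H282R3.SQ.ClosePair

/-! D2: the cluster lemma. -/

namespace H282R3.SQ

open MeasureTheory

/-- one-sided version -/
theorem cluster_aux {ι : Type*} [Fintype ι] (M : ℕ) (hM : Fintype.card ι ≤ M) (G : ι → ℝ)
    (δ : ℝ) (hδ : 0 ≤ δ) (A B : ι)
    (hcp : ∀ T : Set ι, A ∈ T → B ∉ T → ∃ i ∈ T, ∃ j ∉ T, |G i - G j| ≤ δ) :
    G B ≤ G A + M * δ := by
  classical
  by_contra hlt
  push Not at hlt
  have hMr : (0 : ℝ) ≤ (M : ℝ) := by positivity
  rcases hδ.eq_or_lt with h0 | hpos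
  · subst h0
    obtain ⟨i, hi, j, hj, hij⟩ := hcp {i | G i ≤ G A} (by simp) (by
      simp only [Set.mem_ofPred_eq, not_le]; linarith)
    simp only [Set.mem_ofPred_eq, not_le] at hi hj
    have := abs_le.mp hij
    linarith [this.1]
  · have hex : ∃ m ∈ Finset.range M, ∀ i, ¬ (G A + m * δ < G i ∧ G i ≤ G A + (m + 1) * δ) := by
      by_contra hcon
      push Not at hcon
      have h2 : ∀ m : Fin M, ∃ i, G A + ((m : ℕ) : ℝ) * δ < G i ∧ G i ≤ G A + (((m : ℕ) : ℝ) + 1) * δ := by
        intro m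
        exact hcon m (Finset.mem_range.mpr m.2)
      choose f hf using h2
      have hAne : ∀ m, f m ≠ A := by
        intro m h
        have := (hf m).1
        rw [h] at this
        have : (0 : ℝ) ≤ ((m : ℕ) : ℝ) * δ := by positivity
        linarith
      have hinj : Function.Injective f := by
        intro m m' h
        by_contra hne
        rcases lt_or_gt_of_ne (fun h' => hne (Fin.ext h') : (m : ℕ) ≠ (m' : ℕ)) with hl | hl
        · have h1 := (hf m).2
          have h2 := (hf m').1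
          rw [h] at h1
          have : ((m : ℕ) : ℝ) + 1 ≤ ((m' : ℕ) : ℝ) := by exact_mod_cast hl
          have := mul_le_mul_of_nonneg_right this hδ
          linarith
        · have h1 := (hf m).1
          have h2 := (hf m').2
          rw [h] at h1
          have : ((m' : ℕ) : ℝ) + 1 ≤ ((m : ℕ) : ℝ) := by exact_mod_cast hl
          have := mul_le_mul_of_nonneg_right this hδ
          linarith
      have hcard : (insert A (Finset.univ.image f)).card ≤ Fintype.card ι := Finset.card_le_univ _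
      rw [Finset.card_insert_of_notMem (by
        simp only [Finset.mem_image, Finset.mem_univ, true_and, not_exists]
        exact hAne), Finset.card_image_of_injective _ hinj, Finset.card_univ, Fintype.card_fin] at hcard
      omega
    obtain ⟨m, hm, hno⟩ := hex
    have hmM : (m : ℝ) ≤ (M : ℝ) := by exact_mod_cast (Finset.mem_range.mp hm).le
    have hmδ : (0 : ℝ) ≤ (m : ℝ) * δ := by positivity
    obtain ⟨i, hi, j, hj, hij⟩ := hcp {i | G i ≤ G A + m * δ} (by
        simp only [Set.mem_ofPred_eq]; linarith) (by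
        simp only [Set.mem_ofPred_eq, not_le]
        have := mul_le_mul_of_nonneg_right hmM hδ
        linarith)
    simp only [Set.mem_ofPred_eq, not_le] at hi hj
    have h3 := hno j
    push Not at h3
    have h4 := h3 hj
    have := abs_le.mp hij
    linarith [this.1]

/-- D2 (module Cluster). The cluster lemma. -/
theorem cluster {ι : Type*} [Fintype ι] (M : ℕ) (hM : Fintype.card ι ≤ M)
    (F : ι → USq) (S : Set (ℝ × ℝ)) (hS : Convex ℝ S)
    (hcov : ∀ x ∈ S, ∃ i, x ∈ (F i).C) (τ : ℝ) (hτ0 : 0 ≤ τ) (hτ : τ < 1 / 16)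
    (htri : ∀ i j, i ≠ j → ∀ z1 z2 z3 : ℝ × ℝ, z1 ∈ (F i).C ∩ (F j).C →
      z2 ∈ (F i).C ∩ (F j).C → z3 ∈ (F i).C ∩ (F j).C → |det3 z1 z2 z3| ≤ τ)
    (A B : ι) (hAS : (F A).C ⊆ S) (hBS : (F B).C ⊆ S) :
    |(F A).g - (F B).g| ≤ 128 * (M : ℝ) ^ 5 * τ := by
  have h1 := cluster_aux M hM (fun i => (F i).g) (128 * (M : ℝ) ^ 4 * τ) (by positivity) A B
    (fun T hA hB => close_pair M hM F S hS hcov τ hτ0 hτ htri T A B hA hB hAS hBS)
  have h2 := cluster_aux M hM (fun i => (F i).g) (128 * (M : ℝ) ^ 4 * τ) (by positivity) B A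
    (fun T hB hA => close_pair M hM F S hS hcov τ hτ0 hτ htri T B A hB hA hBS hAS)
  have e : (M : ℝ) * (128 * (M : ℝ) ^ 4 * τ) = 128 * (M : ℝ) ^ 5 * τ := by ring
  rw [e] at h1 h2
  rw [abs_le]
  constructor <;> linarith

end H282R3.SQ
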