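import Mathlib

/-!
Unit squares in the plane, cells, waste.  Project: P(n) >= n^2 + c sqrt n (MP_1fa752_co).
-/

namespace H282R3.SQ

open MeasureTheory

/-- A unit square in the plane: centre `(p,q)`, unit frame vector `(a,b)`. -/
structure USq where
  p : ℝ
  q : ℝ
  a : ℝ
  b : ℝ
  unit : a ^ 2 + b ^ 2 = 1

namespace USq

/-- first coordinate in the frame of the square -/
def X (Q : USq) (z : ℝ × ℝ) : ℝ := Q.a * (z.1 - Q.p) + Q.b * (z.2 - Q.q)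

/-- second coordinate in the frame of the square -/
def Y (Q : USq) (z : ℝ × ℝ) : ℝ := -Q.b * (z.1 - Q.p) + Q.a * (z.2 - Q.q)

/-- the closed square -/
def C (Q : USq) : Set (ℝ × ℝ) := {z | |Q.X z| ≤ 1 / 2 ∧ |Q.Y z| ≤ 1 / 2}

/-- the open square -/
def O (Q : USq) : Set (ℝ × ℝ) := {z | |Q.X z| < 1 / 2 ∧ |Q.Y z| < 1 / 2}

/-- the tilt `|a b| = |sin 2θ| / 2` -/
def g (Q : USq) : ℝ := |Q.a * Q.b|

/-- the same square, frame rotated by a quarter turn -/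
def rot (Q : USq) : USq := ⟨Q.p, Q.q, -Q.b, Q.a, by have := Q.unit; nlinarith⟩

end USq

/-- twice the signed area of the triangle `z1 z2 z3` -/
def det3 (z1 z2 z3 : ℝ × ℝ) : ℝ :=
  (z2.1 - z1.1) * (z3.2 - z1.2) - (z2.2 - z1.2) * (z3.1 - z1.1)

/-- The open unit squares `Q i` cover `[0,n]²`. -/
def Cov (n : ℕ) {N : ℕ} (Q : Fin N → USq) : Prop :=
  ∀ x y : ℝ, 0 ≤ x → x ≤ n → 0 ≤ y → y ≤ n → ∃ i, (x, y) ∈ (Q i).O

/-- half-open unit cell with lower left corner `c` -/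
def cell (c : ℤ × ℤ) : Set (ℝ × ℝ) :=
  {z | (c.1 : ℝ) ≤ z.1 ∧ z.1 < c.1 + 1 ∧ (c.2 : ℝ) ≤ z.2 ∧ z.2 < c.2 + 1}

/-- the cell `c` lies in `[0,n]²` -/
def Inside (n : ℕ) (c : ℤ × ℤ) : Prop := 0 ≤ c.1 ∧ c.1 < n ∧ 0 ≤ c.2 ∧ c.2 < n

instance (n : ℕ) (c : ℤ × ℤ) : Decidable (Inside n c) := by unfold Inside; infer_instance

/-- the closed cell `c` as a unit square -/
noncomputable def gridSq (c : ℤ × ℤ) : USq := ⟨c.1 + 1 / 2, c.2 + 1 / 2, 1, 0, by norm_num⟩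

/-- waste in the cell `c` -/
noncomputable def w (n : ℕ) {N : ℕ} (Q : Fin N → USq) (c : ℤ × ℤ) : ℝ :=
  ∑ i, (volume ((Q i).C ∩ cell c)).toReal - if Inside n c then 1 else 0

/-- the `9 × 9` window around the cell `z` -/
noncomputable def win (z : ℤ × ℤ) : Finset (ℤ × ℤ) :=
  Finset.Icc (z.1 - 4) (z.1 + 4) ×ˢ Finset.Icc (z.2 - 4) (z.2 + 4)

/-- waste in the `9 × 9` window around the cell `z` -/
noncomputable def om (n : ℕ) {N : ℕ} (Q : Fin N → USq) (z : ℤ × ℤ) : ℝ :=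
  ∑ c ∈ win z, w n Q c

/-- the region covered by the `9 × 9` window -/
def R (z : ℤ × ℤ) : Set (ℝ × ℝ) :=
  {x | (z.1 : ℝ) - 4 ≤ x.1 ∧ x.1 < z.1 + 5 ∧ (z.2 : ℝ) - 4 ≤ x.2 ∧ x.2 < z.2 + 5}

/-- the closed `5 × 5` block around the cell `z` -/
def K (z : ℤ × ℤ) : Set (ℝ × ℝ) :=
  {x | (z.1 : ℝ) - 2 ≤ x.1 ∧ x.1 ≤ z.1 + 3 ∧ (z.2 : ℝ) - 2 ≤ x.2 ∧ x.2 ≤ z.2 + 3}

/-- the constant of the cluster lemma -/
def C0 : ℝ := 512 * 81 ^ 5

/-- the Euclidean plane -/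
abbrev Plane : Type := EuclideanSpace ℝ (Fin 2)

/-- the closed square `[0,s]²` -/
def square (s : ℝ) : Set Plane := {z | ∀ i, 0 ≤ z i ∧ z i ≤ s}

/-- A closed unit square, in any position and with any orientation: the image of `[0,1]²` under
an isometry of the plane. -/
def IsUnitSquare (A : Set Plane) : Prop := ∃ φ : Plane ≃ᵢ Plane, A = φ '' square 1

/-- `m` closed unit squares can cover the square `[0,s]²`. -/
def CanCover (s : ℝ) (m : ℕ) : Prop :=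
  ∃ A : Fin m → Set Plane, (∀ i, IsUnitSquare (A i)) ∧ square s ⊆ ⋃ i, A i

/-- `N(s)`: the least number of closed unit squares that cover a closed square of side `s`. -/
noncomputable def Nc (s : ℝ) : ℕ := sInf {m | CanCover s m}

/-- `P(n)`: the minimum of `N(n+ε)` over `ε > 0`. -/
noncomputable def P (n : ℕ) : ℕ := sInf {m | ∃ ε : ℝ, 0 < ε ∧ m = Nc (n + ε)}

end H282R3.SQ
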