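import Pool.Agent.H282R3.SQ.Defs

namespace H282R3.SQ

open MeasureTheory

private theorem C_subset_R (Q : USq) : Q.C ⊆ R (⌊Q.p⌋, ⌊Q.q⌋) := by
  intro x hx
  obtain ⟨hX, hY⟩ := hx
  have hX2 : Q.X x ^ 2 ≤ 1 / 4 := by
    have := abs_le.mp hX
    nlinarith [this.1, this.2]
  have hY2 : Q.Y x ^ 2 ≤ 1 / 4 := by
    have := abs_le.mp hY
    nlinarith [this.1, this.2]
  have hsum : (x.1 - Q.p) ^ 2 + (x.2 - Q.q) ^ 2 ≤ 1 / 2 := by
    have hu := Q.unit
    have : (x.1 - Q.p) ^ 2 + (x.2 - Q.q) ^ 2 = Q.X x ^ 2 + Q.Y x ^ 2 := by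
      unfold USq.X USq.Y
      have : (Q.a * (x.1 - Q.p) + Q.b * (x.2 - Q.q)) ^ 2 +
          (-Q.b * (x.1 - Q.p) + Q.a * (x.2 - Q.q)) ^ 2 =
          (Q.a ^ 2 + Q.b ^ 2) * ((x.1 - Q.p) ^ 2 + (x.2 - Q.q) ^ 2) := by ring
      rw [this, hu, one_mul]
    rw [this]; linarith
  have h1 : |x.1 - Q.p| ≤ 1 := by
    rw [abs_le]; constructor <;> nlinarith [sq_nonneg (x.2 - Q.q)]
  have h2 : |x.2 - Q.q| ≤ 1 := by
    rw [abs_le]; constructor <;> nlinarith [sq_nonneg (x.1 - Q.p)]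
  rw [abs_le] at h1 h2
  have a1 := Int.floor_le Q.p
  have a2 := Int.lt_floor_add_one Q.p
  have b1 := Int.floor_le Q.q
  have b2 := Int.lt_floor_add_one Q.q
  refine ⟨?_, ?_, ?_, ?_⟩ <;> dsimp only <;> linarith [h1.1, h1.2, h2.1, h2.2]

private theorem g_nonneg (Q : USq) : 0 ≤ Q.g := abs_nonneg _

private theorem g_le (Q : USq) : Q.g ≤ 1 / 2 := by
  have hu := Q.unit
  unfold USq.g
  rw [abs_le]
  constructor <;> nlinarith [sq_nonneg (Q.a - Q.b), sq_nonneg (Q.a + Q.b)]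

/-- H4 (module Energy), with the needed lemmas as hypotheses. -/
theorem energy_of (n : ℕ) {N : ℕ} (Q : Fin N → USq) (t : ℤ × ℤ → ℝ)
    (hw : ∀ c, 0 ≤ w n Q c)
    (hsum : ∀ Z : Finset (ℤ × ℤ), ∑ z ∈ Z, om n Q z ≤ 81 * ((N : ℝ) - (n : ℝ) ^ 2))
    (hcount : ∀ (z : ℤ × ℤ) (I : Finset (Fin N)) (_ : ∀ i ∈ I, (Q i).C ⊆ R z),
      (I.card : ℝ) + ((win z).filter fun c => ¬ Inside n c).card ≤ 81 + om n Q z)
    (ht0 : ∀ c, 0 ≤ t c) (hsupp : ∀ c, ¬ Inside n c → t c = 0) 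
    (ht : ∀ i, om n Q (⌊(Q i).p⌋, ⌊(Q i).q⌋) ≤ 1 / 100 →
        |(Q i).g - t (⌊(Q i).p⌋, ⌊(Q i).q⌋)| ≤ C0 * om n Q (⌊(Q i).p⌋, ⌊(Q i).q⌋)) :
    ∑ i, (Q i).g ^ 2 ≤
      164 * ∑ c ∈ Finset.Icc (-1 : ℤ) n ×ˢ Finset.Icc (-1 : ℤ) n, t c ^ 2 +
        162 * C0 ^ 2 * ((N : ℝ) - (n : ℝ) ^ 2) := by
  classical
  set Box : Finset (ℤ × ℤ) := Finset.Icc (-1 : ℤ) n ×ˢ Finset.Icc (-1 : ℤ) n with hBox
  set zz : Fin N → ℤ × ℤ := fun i => (⌊(Q i).p⌋, ⌊(Q i).q⌋) with hzz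
  set Z : Finset (ℤ × ℤ) := Finset.univ.image zz with hZ
  have hom0 : ∀ z, 0 ≤ om n Q z := fun z => Finset.sum_nonneg fun c _ => hw c
  have hC0 : (512 : ℝ) ≤ C0 := by unfold C0; norm_num
  have hfib : ∑ i, (Q i).g ^ 2 = ∑ z ∈ Z, ∑ i ∈ Finset.univ.filter (fun i => zz i = z), (Q i).g ^ 2 := by
    rw [Finset.sum_fiberwise_of_maps_to]
    intro i _
    exact Finset.mem_image_of_mem _ (Finset.mem_univ _)
  have hz : ∀ z ∈ Z, ∑ i ∈ Finset.univ.filter (fun i => zz i = z), (Q i).g ^ 2 ≤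
      164 * t z ^ 2 + 2 * C0 ^ 2 * om n Q z := by
    intro z _
    set I := Finset.univ.filter (fun i => zz i = z) with hI
    have hIR : ∀ i ∈ I, (Q i).C ⊆ R z := by
      intro i hi
      have : zz i = z := (Finset.mem_filter.mp hi).2
      rw [← this]
      exact C_subset_R (Q i)
    have hcard : (I.card : ℝ) ≤ 81 + om n Q z := by
      have := hcount z I hIR
      have h0 : (0 : ℝ) ≤ ((win z).filter fun c => ¬ Inside n c).card := Nat.cast_nonneg _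
      linarith
    have ho := hom0 z
    rcases le_or_gt (om n Q z) (1 / 100) with hsmall | hbig
    · have hg : ∀ i ∈ I, (Q i).g ^ 2 ≤ 2 * t z ^ 2 + C0 ^ 2 / 50 * om n Q z := by
        intro i hi
        have hzi : zz i = z := (Finset.mem_filter.mp hi).2
        have h1 := ht i (by
          have : om n Q (zz i) ≤ 1 / 100 := by rw [hzi]; exact hsmall
          exact this)
        have h2 : |(Q i).g - t z| ≤ C0 * om n Q z := by
          have : |(Q i).g - t (zz i)| ≤ C0 * om n Q (zz i) := h1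
          rwa [hzi] at this
        have h3 : ((Q i).g - t z) ^ 2 ≤ (C0 * om n Q z) ^ 2 := by
          rw [← sq_abs]
          exact pow_le_pow_left₀ (abs_nonneg _) h2 2
        have h4 : (C0 * om n Q z) ^ 2 ≤ C0 ^ 2 / 100 * om n Q z := by
          have : om n Q z * om n Q z ≤ 1 / 100 * om n Q z := mul_le_mul_of_nonneg_right hsmall ho
          have hC2 : (0 : ℝ) ≤ C0 ^ 2 := sq_nonneg _
          nlinarith [mul_le_mul_of_nonneg_left this hC2]
        nlinarith [sq_nonneg ((Q i).g - t z - t z)]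
      calc ∑ i ∈ I, (Q i).g ^ 2 ≤ ∑ i ∈ I, (2 * t z ^ 2 + C0 ^ 2 / 50 * om n Q z) :=
            Finset.sum_le_sum hg
        _ = (I.card : ℝ) * (2 * t z ^ 2 + C0 ^ 2 / 50 * om n Q z) := by
            rw [Finset.sum_const, nsmul_eq_mul]
        _ ≤ 82 * (2 * t z ^ 2 + C0 ^ 2 / 50 * om n Q z) := by
            apply mul_le_mul_of_nonneg_right (by linarith)
            positivity
        _ ≤ 164 * t z ^ 2 + 2 * C0 ^ 2 * om n Q z := by
            have : 0 ≤ C0 ^ 2 * om n Q z := mul_nonneg (sq_nonneg _) ho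
            nlinarith
    · calc ∑ i ∈ I, (Q i).g ^ 2 ≤ ∑ i ∈ I, (1 / 4 : ℝ) := by
            refine Finset.sum_le_sum fun i _ => ?_
            have := g_le (Q i)
            have h0 := g_nonneg (Q i)
            nlinarith
        _ = (I.card : ℝ) * (1 / 4) := by rw [Finset.sum_const, nsmul_eq_mul]
        _ ≤ (8101 * om n Q z) * (1 / 4) := by
            apply mul_le_mul_of_nonneg_right _ (by norm_num)
            nlinarith
        _ ≤ 2 * C0 ^ 2 * om n Q z := by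
            have hC2 : (512 : ℝ) ^ 2 ≤ C0 ^ 2 := pow_le_pow_left₀ (by norm_num) hC0 2
            have := mul_le_mul_of_nonneg_right hC2 ho
            nlinarith
        _ ≤ 164 * t z ^ 2 + 2 * C0 ^ 2 * om n Q z := by nlinarith [sq_nonneg (t z)]
  have hZB : ∑ z ∈ Z, t z ^ 2 ≤ ∑ z ∈ Box, t z ^ 2 := by
    have h1 : ∑ z ∈ Z, t z ^ 2 = ∑ z ∈ Z.filter (fun z => z ∈ Box), t z ^ 2 := by
      rw [Finset.sum_filter]
      refine Finset.sum_congr rfl fun z _ => ?_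
      split_ifs with hzB
      · rfl
      · rw [hsupp z]
        · norm_num
        · intro hin
          apply hzB
          unfold Inside at hin
          rw [hBox, Finset.mem_product, Finset.mem_Icc, Finset.mem_Icc]
          omega
    rw [h1]
    apply Finset.sum_le_sum_of_subset_of_nonneg
    · intro z hz
      exact (Finset.mem_filter.mp hz).2
    · intro z _ _
      exact sq_nonneg _
  have hfin := hsum Z
  calc ∑ i, (Q i).g ^ 2 = ∑ z ∈ Z, ∑ i ∈ Finset.univ.filter (fun i => zz i = z), (Q i).g ^ 2 := hfib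
    _ ≤ ∑ z ∈ Z, (164 * t z ^ 2 + 2 * C0 ^ 2 * om n Q z) := Finset.sum_le_sum hz
    _ = 164 * ∑ z ∈ Z, t z ^ 2 + 2 * C0 ^ 2 * ∑ z ∈ Z, om n Q z := by
        rw [Finset.sum_add_distrib, Finset.mul_sum, Finset.mul_sum]
    _ ≤ 164 * ∑ z ∈ Box, t z ^ 2 + 2 * C0 ^ 2 * (81 * ((N : ℝ) - (n : ℝ) ^ 2)) := by
        gcongr
    _ = 164 * ∑ z ∈ Box, t z ^ 2 + 162 * C0 ^ 2 * ((N : ℝ) - (n : ℝ) ^ 2) := by ring

end H282R3.SQ
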