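import Pool.Agent.H282R3.SQ.Defs

/-!
# The tilt field
-/

namespace H282R3.SQ

open MeasureTheory

namespace USq

theorem dist_eq (Q : USq) (z : ℝ × ℝ) :
    Q.X z ^ 2 + Q.Y z ^ 2 = (z.1 - Q.p) ^ 2 + (z.2 - Q.q) ^ 2 := by
  unfold X Y
  have := Q.unit
  linear_combination ((z.1 - Q.p) ^ 2 + (z.2 - Q.q) ^ 2) * this

theorem dist_le_of_mem_C {Q : USq} {z : ℝ × ℝ} (h : z ∈ Q.C) :
    (z.1 - Q.p) ^ 2 + (z.2 - Q.q) ^ 2 ≤ 1 / 2 := by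
  obtain ⟨h1, h2⟩ := h
  rw [← Q.dist_eq]
  have h3 : Q.X z ^ 2 ≤ 1 / 4 := by
    have := sq_le_sq' (abs_le.1 h1).1 (abs_le.1 h1).2
    linarith
  have h4 : Q.Y z ^ 2 ≤ 1 / 4 := by
    have := sq_le_sq' (abs_le.1 h2).1 (abs_le.1 h2).2
    linarith
  linarith

theorem mem_C_of_mem_O {Q : USq} {z : ℝ × ℝ} (h : z ∈ Q.O) : z ∈ Q.C :=
  ⟨h.1.le, h.2.le⟩

theorem g_nonneg (Q : USq) : 0 ≤ Q.g := abs_nonneg _

theorem g_le (Q : USq) : Q.g ≤ 1 / 2 := by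
  unfold g
  rw [abs_le]
  have := Q.unit
  constructor
  · nlinarith [sq_nonneg (Q.a + Q.b)]
  · nlinarith [sq_nonneg (Q.a - Q.b)]

/-- all points of a square of the covering that contains the centre of a cell are near it -/
theorem near_of_mem {Q : USq} {m y : ℝ × ℝ} (hm : m ∈ Q.C) (hy : y ∈ Q.C) :
    |y.1 - m.1| ≤ 3 / 2 ∧ |y.2 - m.2| ≤ 3 / 2 := by
  have h1 := dist_le_of_mem_C hm
  have h2 := dist_le_of_mem_C hy
  have h3 : (y.1 - m.1) ^ 2 + (y.2 - m.2) ^ 2 ≤ 2 := by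
    nlinarith [sq_nonneg (y.1 - Q.p + (m.1 - Q.p)), sq_nonneg (y.2 - Q.q + (m.2 - Q.q))]
  constructor
  · apply abs_le_of_sq_le_sq _ (by norm_num)
    nlinarith [sq_nonneg (y.2 - m.2)]
  · apply abs_le_of_sq_le_sq _ (by norm_num)
    nlinarith [sq_nonneg (y.1 - m.1)]

theorem near_centre {Q : USq} {y : ℝ × ℝ} (hy : y ∈ Q.C) :
    |y.1 - Q.p| ≤ 1 ∧ |y.2 - Q.q| ≤ 1 := by
  have h2 := dist_le_of_mem_C hy
  constructor
  · apply abs_le_of_sq_le_sq _ (by norm_num)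
    nlinarith [sq_nonneg (y.2 - Q.q)]
  · apply abs_le_of_sq_le_sq _ (by norm_num)
    nlinarith [sq_nonneg (y.1 - Q.p)]

end USq

/-- the centre of a cell -/
noncomputable def ctr (z : ℤ × ℤ) : ℝ × ℝ := (z.1 + 1 / 2, z.2 + 1 / 2)

theorem mem_gridSq {c : ℤ × ℤ} {y : ℝ × ℝ} (hy : y ∈ (gridSq c).C) :
    |y.1 - (ctr c).1| ≤ 1 / 2 ∧ |y.2 - (ctr c).2| ≤ 1 / 2 := by
  obtain ⟨h1, h2⟩ := hy
  simp only [USq.X, USq.Y, gridSq, ctr] at h1 h2 ⊢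
  constructor
  · convert h1 using 2
    ring
  · convert h2 using 2
    ring

theorem sub_K {z z' : ℤ × ℤ} (h1 : |z.1 - z'.1| ≤ 1) (h2 : |z.2 - z'.2| ≤ 1) {S : Set (ℝ × ℝ)}
    (hS : ∀ y ∈ S, |y.1 - (ctr z).1| ≤ 3 / 2 ∧ |y.2 - (ctr z).2| ≤ 3 / 2) : S ⊆ K z' := by
  intro y hy
  obtain ⟨h3, h4⟩ := hS y hy
  rw [abs_le] at h1 h2 h3 h4
  simp only [ctr] at h3 h4
  have e1 : (-1 : ℝ) ≤ (z.1 : ℝ) - z'.1 := by exact_mod_cast h1.1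
  have e2 : (z.1 : ℝ) - z'.1 ≤ 1 := by exact_mod_cast h1.2
  have e3 : (-1 : ℝ) ≤ (z.2 : ℝ) - z'.2 := by exact_mod_cast h2.1
  have e4 : (z.2 : ℝ) - z'.2 ≤ 1 := by exact_mod_cast h2.2
  refine ⟨?_, ?_, ?_, ?_⟩ <;> linarith [h3.1, h3.2, h4.1, h4.2]

theorem exists_field_of (n : ℕ) {N : ℕ} (Q : Fin N → USq) (h : Cov n Q)
    (hw : ∀ c : ℤ × ℤ, 0 ≤ w n Q c)
    (horig : ∀ z : ℤ × ℤ, om n Q z ≤ 1 / 100 → ∀ i j : Fin N, (Q i).C ⊆ K z → (Q j).C ⊆ K z →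
      |(Q i).g - (Q j).g| ≤ C0 * om n Q z)
    (hcell : ∀ z : ℤ × ℤ, om n Q z ≤ 1 / 100 → ∀ i : Fin N, (Q i).C ⊆ K z → ∀ c : ℤ × ℤ,
      (gridSq c).C ⊆ K z → ¬ Inside n c → (Q i).g ≤ C0 * om n Q z) :
    ∃ t : ℤ × ℤ → ℝ, (∀ c, 0 ≤ t c) ∧ (∀ c, ¬ Inside n c → t c = 0) ∧
      (∀ c, |t (c.1 + 1, c.2) - t c| ≤ C0 * (om n Q c + om n Q (c.1 + 1, c.2))) ∧
      (∀ c, |t (c.1, c.2 + 1) - t c| ≤ C0 * (om n Q c + om n Q (c.1, c.2 + 1))) ∧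
      (∀ i, om n Q (⌊(Q i).p⌋, ⌊(Q i).q⌋) ≤ 1 / 100 →
        |(Q i).g - t (⌊(Q i).p⌋, ⌊(Q i).q⌋)| ≤ C0 * om n Q (⌊(Q i).p⌋, ⌊(Q i).q⌋)) := by
  classical
  have hC0 : (50 : ℝ) ≤ C0 := by unfold C0; norm_num
  have hC0' : (0 : ℝ) ≤ C0 := by linarith
  have hom : ∀ z, 0 ≤ om n Q z := fun z => Finset.sum_nonneg fun c _ => hw c
  have hex : ∀ z : ℤ × ℤ, Inside n z → ∃ i, ctr z ∈ (Q i).C := by
    intro z hz
    obtain ⟨a1, a2, a3, a4⟩ := hz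
    have b1 : (0 : ℝ) ≤ z.1 := by exact_mod_cast a1
    have b2 : (z.1 : ℝ) + 1 ≤ n := by exact_mod_cast a2
    have b3 : (0 : ℝ) ≤ z.2 := by exact_mod_cast a3
    have b4 : (z.2 : ℝ) + 1 ≤ n := by exact_mod_cast a4
    obtain ⟨i, hi⟩ := h (z.1 + 1 / 2) (z.2 + 1 / 2) (by linarith) (by linarith) (by linarith)
      (by linarith)
    exact ⟨i, USq.mem_C_of_mem_O hi⟩
  obtain ⟨t, ht1, ht2⟩ : ∃ t : ℤ × ℤ → ℝ,
      (∀ z, (Inside n z ∧ om n Q z ≤ 1 / 100) → ∃ i, ctr z ∈ (Q i).C ∧ t z = (Q i).g) ∧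
      (∀ z, ¬ (Inside n z ∧ om n Q z ≤ 1 / 100) → t z = 0) := by
    refine ⟨fun z => if hz : (Inside n z ∧ om n Q z ≤ 1 / 100) then (Q (hex z hz.1).choose).g
      else 0, ?_, ?_⟩
    · intro z hz
      exact ⟨(hex z hz.1).choose, (hex z hz.1).choose_spec, by simp only [dif_pos hz]⟩
    · intro z hz
      simp only [dif_neg hz]
  have hgrid : ∀ c z : ℤ × ℤ, |c.1 - z.1| ≤ 1 → |c.2 - z.2| ≤ 1 → (gridSq c).C ⊆ K z := by
    intro c z h1 h2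
    apply sub_K h1 h2
    intro y hy
    obtain ⟨h3, h4⟩ := mem_gridSq hy
    exact ⟨by linarith, by linarith⟩
  have hsubK : ∀ z z' : ℤ × ℤ, |z.1 - z'.1| ≤ 1 → |z.2 - z'.2| ≤ 1 → ∀ i, ctr z ∈ (Q i).C →
      (Q i).C ⊆ K z' := by
    intro z z' h1 h2 i hi
    apply sub_K h1 h2
    intro y hy
    exact USq.near_of_mem hi hy
  have hgood : ∀ z z' : ℤ × ℤ, |z'.1 - z.1| ≤ 1 → |z'.2 - z.2| ≤ 1 →
      (Inside n z ∧ om n Q z ≤ 1 / 100) → |t z' - t z| ≤ C0 * (om n Q z + om n Q z') := by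
    intro z z' h1 h2 hz
    obtain ⟨i, hi, hti⟩ := ht1 z hz
    have hiK : (Q i).C ⊆ K z := hsubK z z (by simp) (by simp) i hi
    have hz1 := hom z
    have hz2 := hom z'
    by_cases hz' : (Inside n z' ∧ om n Q z' ≤ 1 / 100)
    · obtain ⟨j, hj, htj⟩ := ht1 z' hz'
      rw [hti, htj]
      have h3 := horig z hz.2 j i (hsubK z' z h1 h2 j hj) hiK
      nlinarith [mul_nonneg hC0' hz2]
    · rw [ht2 z' hz', hti, zero_sub, abs_neg, abs_of_nonneg (USq.g_nonneg _)]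
      by_cases hin : Inside n z'
      · have h4 : 1 / 100 < om n Q z' := by
          by_contra hcon
          exact hz' ⟨hin, not_lt.1 hcon⟩
        have h5 := (Q i).g_le
        nlinarith [mul_nonneg hC0' hz1]
      · have h3 := hcell z hz.2 i hiK z' (hgrid z' z h1 h2) hin
        nlinarith [mul_nonneg hC0' hz2]
  have hgrad : ∀ z z' : ℤ × ℤ, |z'.1 - z.1| ≤ 1 → |z'.2 - z.2| ≤ 1 →
      |t z' - t z| ≤ C0 * (om n Q z + om n Q z') := by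
    intro z z' h1 h2
    by_cases hz : (Inside n z ∧ om n Q z ≤ 1 / 100)
    · exact hgood z z' h1 h2 hz
    by_cases hz' : (Inside n z' ∧ om n Q z' ≤ 1 / 100)
    · rw [abs_sub_comm, add_comm]
      exact hgood z' z (by rw [abs_sub_comm]; exact h1) (by rw [abs_sub_comm]; exact h2) hz'
    · rw [ht2 z hz, ht2 z' hz', sub_zero, abs_zero]
      exact mul_nonneg hC0' (add_nonneg (hom z) (hom z'))
  refine ⟨t, ?_, ?_, ?_, ?_, ?_⟩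
  · intro c
    by_cases hc : (Inside n c ∧ om n Q c ≤ 1 / 100)
    · obtain ⟨i, -, hti⟩ := ht1 c hc
      rw [hti]
      exact USq.g_nonneg _
    · rw [ht2 c hc]
  · intro c hc
    exact ht2 c fun hcon => hc hcon.1
  · intro c
    exact hgrad c (c.1 + 1, c.2) (by simp) (by simp)
  · intro c
    exact hgrad c (c.1, c.2 + 1) (by simp) (by simp)
  · intro i hi
    obtain ⟨z, hzdef⟩ : ∃ z : ℤ × ℤ, z = (⌊(Q i).p⌋, ⌊(Q i).q⌋) := ⟨_, rfl⟩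
    rw [← hzdef] at hi ⊢
    have hiK : (Q i).C ⊆ K z := by
      intro y hy
      obtain ⟨h1, h2⟩ := USq.near_centre hy
      rw [abs_le] at h1 h2
      have e1 : (z.1 : ℝ) ≤ (Q i).p := by rw [hzdef]; exact Int.floor_le _
      have e2 : (Q i).p < z.1 + 1 := by rw [hzdef]; exact Int.lt_floor_add_one _
      have e3 : (z.2 : ℝ) ≤ (Q i).q := by rw [hzdef]; exact Int.floor_le _
      have e4 : (Q i).q < z.2 + 1 := by rw [hzdef]; exact Int.lt_floor_add_one _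
      refine ⟨?_, ?_, ?_, ?_⟩ <;> linarith [h1.1, h1.2, h2.1, h2.2]
    by_cases hin : Inside n z
    · obtain ⟨j, hj, htj⟩ := ht1 z ⟨hin, hi⟩
      rw [htj]
      exact horig z hi i j hiK (hsubK z z (by simp) (by simp) j hj)
    · rw [ht2 z (fun hcon => hin hcon.1), sub_zero, abs_of_nonneg (USq.g_nonneg _)]
      exact hcell z hi i hiK z (hgrid z z (by simp) (by simp)) hin

end H282R3.SQ
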