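import Pool.Agent.H282R3.SQ.Scale

/-! Task I4: the final result. -/

namespace H282R3.SQ

theorem canCover_mono {s s' : ℝ} (hs : s ≤ s') {m : ℕ} (h : CanCover s' m) : CanCover s m := by
  obtain ⟨A, hA, hcov⟩ := h
  refine ⟨A, hA, fun z hz => hcov fun i => ?_⟩
  exact ⟨(hz i).1, (hz i).2.trans hs⟩

theorem Nc_mem (hex : ∀ s : ℝ, ∃ m, CanCover s m) (s : ℝ) : CanCover s (Nc s) :=
  Nat.sInf_mem (s := {m | CanCover s m}) (hex s)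

theorem Nc_mono (hex : ∀ s : ℝ, ∃ m, CanCover s m) {s s' : ℝ} (hs : s ≤ s') : Nc s ≤ Nc s' :=
  Nat.sInf_le (canCover_mono hs (Nc_mem hex s'))

theorem P_attained (n : ℕ) : ∃ ε : ℝ, 0 < ε ∧ P n = Nc (n + ε) :=
  Nat.sInf_mem (s := {m | ∃ ε : ℝ, 0 < ε ∧ m = Nc (n + ε)}) ⟨Nc (n + 1), 1, one_pos, rfl⟩

/-- I4 (module Final). -/
theorem final_result' (hex : ∀ s : ℝ, ∃ m, CanCover s m)
    (hscale : ∀ (n m : ℕ) (_ : 1 ≤ n) (ε : ℝ) (_ : 0 < ε) (_ : CanCover (n + ε) m),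
      ∃ Q : Fin m → USq, Cov n Q)
    (hk0 : ∀ (n N : ℕ) (Q : Fin N → USq), Cov n Q → 0 ≤ (N : ℝ) - (n : ℝ) ^ 2)
    (hmain : ∀ (n N : ℕ) (Q : Fin N → USq), Cov n Q →
      (n : ℝ) ≤ ((N : ℝ) - (n : ℝ) ^ 2) + 2 * (164 * (81 * C0 * ((N : ℝ) - (n : ℝ) ^ 2)) ^ 2 +
      162 * C0 ^ 2 * ((N : ℝ) - (n : ℝ) ^ 2))) :
    (∀ n : ℕ, ∃ δ : ℝ, 0 < δ ∧ ∀ ε : ℝ, 0 < ε → ε ≤ δ → Nc (n + ε) = P n) ∧
      ∃ c : ℝ, 0 < c ∧ ∀ n : ℕ, 1 ≤ n → c * Real.sqrt n ≤ (P n : ℝ) - (n : ℝ) ^ 2 := by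
  constructor
  · intro n
    obtain ⟨δ, hδ, hP⟩ := P_attained n
    refine ⟨δ, hδ, fun ε hε hεδ => le_antisymm ?_ ?_⟩
    · rw [hP]
      exact Nc_mono hex (by linarith)
    · exact Nat.sInf_le ⟨ε, hε, rfl⟩
  · have hC0 : 0 < C0 := by unfold C0; norm_num
    set D : ℝ := 1 + 2 * (164 * (81 * C0) ^ 2) + 2 * (162 * C0 ^ 2) with hD
    have hD0 : 0 < D := by positivity
    refine ⟨1 / Real.sqrt D, by positivity, fun n hn => ?_⟩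
    obtain ⟨ε, hε, hP⟩ := P_attained n
    have hcc : CanCover (n + ε) (P n) := by
      rw [hP]; exact Nc_mem hex _
    obtain ⟨Q, hQ⟩ := hscale n (P n) hn ε hε hcc
    have h0 := hk0 n (P n) Q hQ
    have h1 := hmain n (P n) Q hQ
    obtain ⟨k, hk⟩ : ∃ k : ℤ, (k : ℝ) = (P n : ℝ) - (n : ℝ) ^ 2 :=
      ⟨(P n : ℤ) - (n : ℤ) ^ 2, by push_cast; rfl⟩
    rw [← hk] at h0 h1 ⊢
    have hn1 : (1 : ℝ) ≤ n := by exact_mod_cast hn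
    have hk1 : 1 ≤ k := by
      have hk0' : 0 ≤ k := by exact_mod_cast h0
      rcases hk0'.eq_or_lt with h | h
      · exfalso
        rw [← h] at h1
        norm_num at h1
        linarith
      · omega
    have hk1' : (1 : ℝ) ≤ k := by exact_mod_cast hk1
    have h2 : (n : ℝ) ≤ D * (k : ℝ) ^ 2 := by
      have h3 : (k : ℝ) ≤ (k : ℝ) ^ 2 := by nlinarith
      have h4 : C0 ^ 2 * (k : ℝ) ≤ C0 ^ 2 * (k : ℝ) ^ 2 :=
        mul_le_mul_of_nonneg_left h3 (by positivity)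
      rw [hD]
      nlinarith
    rw [one_div, inv_mul_le_iff₀ (by positivity)]
    calc Real.sqrt n ≤ Real.sqrt (D * (k : ℝ) ^ 2) := Real.sqrt_le_sqrt h2
      _ = Real.sqrt D * k := by
        rw [Real.sqrt_mul hD0.le, Real.sqrt_sq h0]

end H282R3.SQ
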