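import Pool.Agent.H282R3.SQ.Defs

/-! Module Grid: finitely many unit squares cover any square. -/

namespace H282R3.SQ

open MeasureTheory

/-- I2 (module Grid). Finitely many unit squares suffice. -/
theorem exists_cover (s : ℝ) : ∃ m, CanCover s m := by
  set K : ℕ := ⌊s⌋₊ + 1 with hK
  refine ⟨K * K, fun k => (IsometryEquiv.addRight
    (WithLp.toLp 2 ![((finProdFinEquiv.symm k).1 : ℝ), ((finProdFinEquiv.symm k).2 : ℝ)] : Plane))
      '' square 1, fun k => ⟨_, rfl⟩, ?_⟩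
  intro z hz
  have h0 := hz 0
  have h1 := hz 1
  have hs : 0 ≤ s := le_trans h0.1 h0.2
  have hi : ⌊z 0⌋₊ < K := by
    rw [hK]
    exact Nat.lt_succ_of_le (Nat.floor_le_floor h0.2)
  have hj : ⌊z 1⌋₊ < K := by
    rw [hK]
    exact Nat.lt_succ_of_le (Nat.floor_le_floor h1.2)
  rw [Set.mem_iUnion]
  refine ⟨finProdFinEquiv (⟨⌊z 0⌋₊, hi⟩, ⟨⌊z 1⌋₊, hj⟩), ?_⟩
  rw [Equiv.symm_apply_apply]
  refine ⟨z - WithLp.toLp 2 ![(⌊z 0⌋₊ : ℝ), (⌊z 1⌋₊ : ℝ)], ?_, ?_⟩
  · intro i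
    have a0 := Nat.floor_le h0.1
    have a1 := Nat.floor_le h1.1
    have b0 := Nat.lt_floor_add_one (z 0)
    have b1 := Nat.lt_floor_add_one (z 1)
    fin_cases i
    · simp
      constructor <;> linarith
    · simp
      constructor <;> linarith
  · simp

end H282R3.SQ
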