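import Mathlib
import Pool.Agent.H282R3.SQ.Defs

namespace H282R3.SQ

open MeasureTheory

/-- I1 (module Iso). Every unit square is a `USq`. -/
theorem exists_USq (A : Set Plane) (hA : IsUnitSquare A) :
    ∃ Q : USq, ∀ z : Plane, z ∈ A ↔ (z 0, z 1) ∈ Q.C := by
  obtain ⟨φ, rfl⟩ := hA
  set L := φ.toRealAffineIsometryEquiv.linearIsometryEquiv with hL
  have hφ : ∀ u : Plane, φ u = φ 0 + L u := by
    intro u
    have h := φ.toRealAffineIsometryEquiv.map_vadd (0 : Plane) u
    rw [IsometryEquiv.coeFn_toRealAffineIsometryEquiv] at h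
    simp only [vadd_eq_add, add_zero] at h
    rw [h, add_comm]
  set e0 : Plane := L (EuclideanSpace.single 0 1) with he0
  set e1 : Plane := L (EuclideanSpace.single 1 1) with he1
  have hdec : ∀ u : Plane, φ u = φ 0 + (u 0 • e0 + u 1 • e1) := by
    intro u
    have hu : u = u 0 • EuclideanSpace.single (0 : Fin 2) (1 : ℝ) +
        u 1 • EuclideanSpace.single (1 : Fin 2) (1 : ℝ) := by
      ext i
      fin_cases i <;> simp
    rw [hφ u]
    conv_lhs => rw [hu]
    rw [map_add, map_smul, map_smul]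
  have n0 : e0 0 ^ 2 + e0 1 ^ 2 = 1 := by
    have h : ‖e0‖ = 1 := by rw [he0, L.norm_map]; simp
    have h' := EuclideanSpace.real_norm_sq_eq e0
    rw [h, Fin.sum_univ_two] at h'
    linarith
  have n1 : e1 0 ^ 2 + e1 1 ^ 2 = 1 := by
    have h : ‖e1‖ = 1 := by rw [he1, L.norm_map]; simp
    have h' := EuclideanSpace.real_norm_sq_eq e1
    rw [h, Fin.sum_univ_two] at h'
    linarith
  have n2 : e0 0 * e1 0 + e0 1 * e1 1 = 0 := by
    have h := L.inner_map_map (EuclideanSpace.single (0 : Fin 2) (1 : ℝ)) (EuclideanSpace.single 1 1)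
    rw [← he0, ← he1] at h
    simp [PiLp.inner_apply, Fin.sum_univ_two] at h
    nlinarith [h]
  set a := e0 0
  set b := e0 1
  set c := e1 0
  set d := e1 1
  have hc : c = -((a * d - b * c) * b) := by linear_combination (-c) * n0 + a * n2
  have hd : d = (a * d - b * c) * a := by linear_combination (-d) * n0 + b * n2
  have hε : (a * d - b * c) ^ 2 = 1 := by
    linear_combination n1 + (c ^ 2 + d ^ 2) * n0 - (a * c + b * d) * n2
  have hε' : |a * d - b * c| = 1 := by
    rw [← sq_eq_sq₀ (abs_nonneg _) zero_le_one, sq_abs, hε, one_pow]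
  refine ⟨⟨φ 0 0 + a / 2 + c / 2, φ 0 1 + b / 2 + d / 2, a, b, n0⟩, fun z => ?_⟩
  obtain ⟨u, rfl⟩ := φ.surjective z
  have z0 : φ u 0 = φ 0 0 + (u 0 * a + u 1 * c) := by
    have := congrArg (fun v : Plane => v 0) (hdec u)
    simpa using this
  have z1 : φ u 1 = φ 0 1 + (u 0 * b + u 1 * d) := by
    have := congrArg (fun v : Plane => v 1) (hdec u)
    simpa using this
  have hX : USq.X ⟨φ 0 0 + a / 2 + c / 2, φ 0 1 + b / 2 + d / 2, a, b, n0⟩ (φ u 0, φ u 1) =
      u 0 - 1 / 2 := by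
    unfold USq.X
    simp only
    rw [z0, z1]
    linear_combination (u 0 - 1 / 2) * n0 + (u 1 - 1 / 2) * n2
  have hY : USq.Y ⟨φ 0 0 + a / 2 + c / 2, φ 0 1 + b / 2 + d / 2, a, b, n0⟩ (φ u 0, φ u 1) =
      (a * d - b * c) * (u 1 - 1 / 2) := by
    unfold USq.Y
    simp only
    rw [z0, z1]
    ring
  rw [φ.injective.mem_set_image]
  unfold USq.C square
  rw [Set.mem_ofPred_eq, Set.mem_ofPred_eq, hX, hY, abs_mul, hε', one_mul, abs_le, abs_le]
  constructor
  · intro h
    have h0 := h 0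
    have h1 := h 1
    refine ⟨⟨by linarith, by linarith⟩, ⟨by linarith, by linarith⟩⟩
  · rintro ⟨⟨h1, h2⟩, h3, h4⟩ i
    fin_cases i
    · exact ⟨by simp only [Fin.zero_eta]; linarith, by simp only [Fin.zero_eta]; linarith⟩
    · exact ⟨by simp only [Fin.mk_one]; linarith, by simp only [Fin.mk_one]; linarith⟩

end H282R3.SQ
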