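import Pool.Agent.H282R3.SQ.Defs

/-! Module Lines (helper143): the lines `y = j`, with the chord bound as a hypothesis. -/

namespace H282R3.SQ

open MeasureTheory

theorem li_sub (Q : USq) (y : ℝ) :
    {x : ℝ | (x, y) ∈ Q.O} ⊆ Set.Icc (Q.p - 1) (Q.p + 1) := by
  intro x hx
  obtain ⟨h1, h2⟩ := hx
  have hu := Q.unit
  have hX : (Q.X (x, y)) ^ 2 < (1 / 2) ^ 2 := by
    rw [sq_lt_sq, abs_of_pos (by norm_num : (0 : ℝ) < 1 / 2)]
    exact h1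
  have hY : (Q.Y (x, y)) ^ 2 < (1 / 2) ^ 2 := by
    rw [sq_lt_sq, abs_of_pos (by norm_num : (0 : ℝ) < 1 / 2)]
    exact h2
  have hs : (Q.X (x, y)) ^ 2 + (Q.Y (x, y)) ^ 2 = (x - Q.p) ^ 2 + (y - Q.q) ^ 2 := by
    simp only [USq.X, USq.Y]
    linear_combination ((x - Q.p) ^ 2 + (y - Q.q) ^ 2) * hu
  have h3 : (x - Q.p) ^ 2 ≤ 1 := by nlinarith [sq_nonneg (y - Q.q)]
  have h4 := abs_le_of_sq_le_sq' (by nlinarith : (x - Q.p) ^ 2 ≤ 1 ^ 2) (by norm_num)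
  constructor <;> linarith [h4.1, h4.2]

theorem li_fin (Q : USq) (y : ℝ) : volume {x : ℝ | (x, y) ∈ Q.O} < ⊤ :=
  lt_of_le_of_lt (measure_mono (li_sub Q y)) (by simp)

theorem li_one (n N : ℕ) (Q : Fin N → USq) (h : Cov n Q) (j : ℕ) (hj : j ≤ n) :
    (n : ℝ) ≤ ∑ i, (volume {x : ℝ | (x, (j : ℝ)) ∈ (Q i).O}).toReal := by
  have h1 : Set.Icc (0 : ℝ) n ⊆ ⋃ i, {x : ℝ | (x, (j : ℝ)) ∈ (Q i).O} := by
    intro x hx
    obtain ⟨i, hi⟩ := h x j hx.1 hx.2 (Nat.cast_nonneg j) (by exact_mod_cast hj)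
    exact Set.mem_iUnion.2 ⟨i, hi⟩
  have h2 : volume (Set.Icc (0 : ℝ) n) ≤ ∑ i, volume {x : ℝ | (x, (j : ℝ)) ∈ (Q i).O} :=
    (measure_mono h1).trans (measure_iUnion_fintype_le _ _)
  rw [← ENNReal.toReal_sum fun i _ => (li_fin (Q i) j).ne]
  have h3 : (volume (Set.Icc (0 : ℝ) n)).toReal = n := by
    rw [Real.volume_Icc, sub_zero, ENNReal.toReal_ofReal (Nat.cast_nonneg n)]
  rw [← h3]
  exact ENNReal.toReal_mono (ENNReal.sum_lt_top.2 fun i _ => li_fin (Q i) j).ne h2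

/-- `lines`, with `chord_sum` as a hypothesis -/
theorem lines_of
    (hc : ∀ (Q : USq) (n : ℕ),
      ∑ j ∈ Finset.range (n + 1), (volume {x : ℝ | (x, (j : ℝ)) ∈ Q.O}).toReal ≤ 1 + 2 * Q.g ^ 2)
    (n N : ℕ) (Q : Fin N → USq) (h : Cov n Q) :
    (n : ℝ) * (n + 1) ≤ N + 2 * ∑ i, (Q i).g ^ 2 := by
  have h1 : ∑ _j ∈ Finset.range (n + 1), (n : ℝ) ≤ ∑ j ∈ Finset.range (n + 1),
      ∑ i, (volume {x : ℝ | (x, (j : ℝ)) ∈ (Q i).O}).toReal := by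
    refine Finset.sum_le_sum fun j hj => li_one n N Q h j ?_
    rw [Finset.mem_range] at hj
    omega
  rw [Finset.sum_comm] at h1
  have h2 : ∑ i, ∑ j ∈ Finset.range (n + 1), (volume {x : ℝ | (x, (j : ℝ)) ∈ (Q i).O}).toReal ≤
      ∑ i, (1 + 2 * (Q i).g ^ 2) := Finset.sum_le_sum fun i _ => hc (Q i) n
  rw [Finset.sum_const, Finset.card_range, nsmul_eq_mul] at h1
  rw [Finset.sum_add_distrib, ← Finset.mul_sum, Finset.sum_const, Finset.card_univ,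
    Fintype.card_fin, nsmul_eq_mul] at h2
  push_cast at h1
  linarith

end H282R3.SQ
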