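import Pool.Agent.H282R3.SQ.Defs

/-! Task B (helper153): the link lemma. -/

namespace H282R3.SQ

open MeasureTheory

private lemma half_bound {x1 x2 d m : ℝ} (h1 : |x1| ≤ 1 / 2) (h2 : |x2| ≤ 1 / 2)
    (hd : x2 - x1 = d) {e : ℝ} (he : |e| ≤ |d| / 2) (hm : m = (x1 + x2) / 2 + e) : |m| ≤ 1 / 2 := by
  rw [abs_le] at *
  rcases abs_cases d with ⟨hd', _⟩ | ⟨hd', _⟩ <;> rw [hd'] at he <;>
    constructor <;> linarith [h1.1, h1.2, h2.1, h2.2, he.1, he.2]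

/-- The case `Y z1 ≤ Y z2`. -/
private lemma link_aux (Q Q' : USq) (τ ℓ : ℝ) (hℓ : 0 < ℓ)
    (htri : ∀ z1 z2 z3 : ℝ × ℝ, z1 ∈ Q.C ∩ Q'.C → z2 ∈ Q.C ∩ Q'.C → z3 ∈ Q.C ∩ Q'.C →
      |det3 z1 z2 z3| ≤ τ)
    (z1 z2 : ℝ × ℝ) (h1 : z1 ∈ Q.C ∩ Q'.C) (h2 : z2 ∈ Q.C ∩ Q'.C)
    (hx1 : Q.X z1 = 1 / 2) (hx2 : Q.X z2 = 1 / 2) (hy : ℓ ≤ Q.Y z2 - Q.Y z1) :
    |(Q.a * Q'.a + Q.b * Q'.b) * (-Q.b * Q'.a + Q.a * Q'.b)| ≤ 2 * τ / ℓ ^ 2 := by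
  obtain ⟨p, q, a, b, hu⟩ := Q
  obtain ⟨p', q', a', b', hu'⟩ := Q'
  obtain ⟨x1, y1⟩ := z1
  obtain ⟨x2, y2⟩ := z2
  simp only [USq.X, USq.Y, USq.C, Set.mem_inter_iff, Set.mem_setOf_eq, det3] at *
  set L : ℝ := -b * (x2 - p) + a * (y2 - q) - (-b * (x1 - p) + a * (y1 - q)) with hL
  set κ : ℝ := a * a' + b * b' with hκ
  set μ : ℝ := -b * a' + a * b' with hμ
  have hκμ : κ ^ 2 + μ ^ 2 = 1 := by
    have : κ ^ 2 + μ ^ 2 = (a ^ 2 + b ^ 2) * (a' ^ 2 + b' ^ 2) := by rw [hκ, hμ]; ring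
    rw [this, hu, hu']; ring
  obtain ⟨⟨h11, h12⟩, h13, h14⟩ := h1
  obtain ⟨⟨h21, h22⟩, h23, h24⟩ := h2
  have e1 : x2 - x1 = -b * L := by
    have : x2 - x1 = (a ^ 2 + b ^ 2) * (x2 - x1) := by rw [hu]; ring
    rw [this, hL]
    have h0 : a * (x2 - x1) + b * (y2 - y1) = 0 := by linarith
    linear_combination a * h0
  have e2 : y2 - y1 = a * L := by
    have : y2 - y1 = (a ^ 2 + b ^ 2) * (y2 - y1) := by rw [hu]; ring
    rw [this, hL]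
    have h0 : a * (x2 - x1) + b * (y2 - y1) = 0 := by linarith
    linear_combination b * h0
  have hL0 : 0 < L := lt_of_lt_of_le hℓ hy
  have hL1 : L ≤ 1 := by
    rw [abs_le] at h12 h22
    rw [hL]; linarith [h12.1, h22.2]
  have hab : |κ * μ| ≤ 1 / 2 := by
    rw [abs_le]; constructor <;> nlinarith [sq_nonneg (κ + μ), sq_nonneg (κ - μ)]
  set r : ℝ := ℓ / 2 * |κ * μ| with hr
  have hr0 : 0 ≤ r := by positivity
  have hr1 : r ≤ 1 / 4 := by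
    have : ℓ / 2 * |κ * μ| ≤ 1 / 2 * (1 / 2) := by
      apply mul_le_mul _ hab (abs_nonneg _) (by norm_num)
      linarith
    linarith
  have hκ1 : |κ| ^ 2 ≤ 1 := by rw [sq_abs]; nlinarith [sq_nonneg μ]
  have hμ1 : |μ| ^ 2 ≤ 1 := by rw [sq_abs]; nlinarith [sq_nonneg κ]
  -- the third point
  have hz3 := htri (x1, y1) (x2, y2) ((x1 + x2) / 2 - r * a, (y1 + y2) / 2 - r * b)
    ⟨⟨h11, h12⟩, h13, h14⟩ ⟨⟨h21, h22⟩, h23, h24⟩ ?_
  · simp only at hz3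
    have hdet : (x2 - x1) * ((y1 + y2) / 2 - r * b - y1) - (y2 - y1) * ((x1 + x2) / 2 - r * a - x1)
        = L * r := by
      have : (x2 - x1) * ((y1 + y2) / 2 - r * b - y1) - (y2 - y1) * ((x1 + x2) / 2 - r * a - x1)
          = - r * b * (x2 - x1) + r * a * (y2 - y1) := by ring
      rw [this, e1, e2]
      linear_combination L * r * hu
    rw [hdet, abs_of_nonneg (by positivity)] at hz3
    rw [le_div_iff₀ (by positivity)]
    have : ℓ * r ≤ τ := le_trans (mul_le_mul_of_nonneg_right hy hr0) hz3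
    rw [hr] at this
    nlinarith [this]
  · refine ⟨⟨?_, ?_⟩, ?_, ?_⟩
    · have : a * ((x1 + x2) / 2 - r * a - p) + b * ((y1 + y2) / 2 - r * b - q) = 1 / 2 - r := by
        linear_combination (1 / 2) * hx1 + (1 / 2) * hx2 - r * hu
      simp only [this]
      rw [abs_le]; constructor <;> linarith
    · refine half_bound h12 h22 (d := L) (e := 0) hL.symm (by rw [abs_zero]; positivity) ?_
      simp only
      ring
    · refine half_bound h13 h23 (d := L * μ) (e := -(r * κ)) ?_ ?_ ?_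
      · rw [hμ]
        linear_combination a' * e1 + b' * e2
      · rw [abs_neg, abs_mul, abs_of_nonneg hr0, abs_mul, abs_of_pos hL0, hr, abs_mul]
        have : ℓ / 2 * (|κ| * |μ|) * |κ| = ℓ / 2 * |μ| * |κ| ^ 2 := by ring
        rw [this]
        calc ℓ / 2 * |μ| * |κ| ^ 2 ≤ ℓ / 2 * |μ| * 1 := by gcongr
          _ ≤ L / 2 * |μ| := by rw [mul_one]; gcongr
          _ = L * |μ| / 2 := by ring
      · simp only
        rw [hκ]; ring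
    · refine half_bound h14 h24 (d := L * κ) (e := r * μ) ?_ ?_ ?_
      · rw [hκ]
        linear_combination -b' * e1 + a' * e2
      · rw [abs_mul, abs_of_nonneg hr0, abs_mul, abs_of_pos hL0, hr, abs_mul]
        have : ℓ / 2 * (|κ| * |μ|) * |μ| = ℓ / 2 * |κ| * |μ| ^ 2 := by ring
        rw [this]
        calc ℓ / 2 * |κ| * |μ| ^ 2 ≤ ℓ / 2 * |κ| * 1 := by gcongr
          _ ≤ L / 2 * |κ| := by rw [mul_one]; gcongr
          _ = L * |κ| / 2 := by ring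
      · simp only
        rw [hμ]; ring

private lemma tilt_le (a b a' b' : ℝ) (hu : a ^ 2 + b ^ 2 = 1) (hu' : a' ^ 2 + b' ^ 2 = 1) :
    |a' * b'| ≤ |a * b| + |(a * a' + b * b') * (-b * a' + a * b')| := by
  set κ : ℝ := a * a' + b * b' with hκ
  set μ : ℝ := -b * a' + a * b' with hμ
  have hκμ : κ ^ 2 + μ ^ 2 = 1 := by
    have : κ ^ 2 + μ ^ 2 = (a ^ 2 + b ^ 2) * (a' ^ 2 + b' ^ 2) := by rw [hκ, hμ]; ring
    rw [this, hu, hu']; ring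
  have ha' : a' = κ * a - μ * b := by
    rw [hκ, hμ]; linear_combination -a' * hu
  have hb' : b' = κ * b + μ * a := by
    rw [hκ, hμ]; linear_combination -b' * hu
  have h : a' * b' = (κ ^ 2 - μ ^ 2) * (a * b) + κ * μ * (a ^ 2 - b ^ 2) := by
    rw [ha', hb']
    ring
  have h1 : |κ ^ 2 - μ ^ 2| ≤ 1 := by
    rw [abs_le]; constructor <;> nlinarith [sq_nonneg κ, sq_nonneg μ]
  have h2 : |a ^ 2 - b ^ 2| ≤ 1 := by
    rw [abs_le]; constructor <;> nlinarith [sq_nonneg a, sq_nonneg b]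
  calc |a' * b'| = |(κ ^ 2 - μ ^ 2) * (a * b) + κ * μ * (a ^ 2 - b ^ 2)| := by rw [h]
    _ ≤ |(κ ^ 2 - μ ^ 2) * (a * b)| + |κ * μ * (a ^ 2 - b ^ 2)| := abs_add_le _ _
    _ = |κ ^ 2 - μ ^ 2| * |a * b| + |κ * μ| * |a ^ 2 - b ^ 2| := by rw [abs_mul, abs_mul (κ * μ)]
    _ ≤ 1 * |a * b| + |κ * μ| * 1 := by gcongr
    _ = _ := by ring

/-- B (module Link). Two points of the side `X = 1/2` of `Q`, at distance at least `ℓ`, both in `Q'`,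
and all triangles in the intersection small: the tilts are close. -/
theorem link (Q Q' : USq) (τ ℓ : ℝ) (hℓ : 0 < ℓ)
    (htri : ∀ z1 z2 z3 : ℝ × ℝ, z1 ∈ Q.C ∩ Q'.C → z2 ∈ Q.C ∩ Q'.C → z3 ∈ Q.C ∩ Q'.C →
      |det3 z1 z2 z3| ≤ τ)
    (z1 z2 : ℝ × ℝ) (h1 : z1 ∈ Q.C ∩ Q'.C) (h2 : z2 ∈ Q.C ∩ Q'.C)
    (hx1 : Q.X z1 = 1 / 2) (hx2 : Q.X z2 = 1 / 2) (hy : ℓ ≤ |Q.Y z1 - Q.Y z2|) :
    |Q.g - Q'.g| ≤ 2 * τ / ℓ ^ 2 := by
  have key : |(Q.a * Q'.a + Q.b * Q'.b) * (-Q.b * Q'.a + Q.a * Q'.b)| ≤ 2 * τ / ℓ ^ 2 := by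
    rcases le_abs.1 hy with h | h
    · exact link_aux Q Q' τ ℓ hℓ htri z2 z1 h2 h1 hx2 hx1 h
    · exact link_aux Q Q' τ ℓ hℓ htri z1 z2 h1 h2 hx1 hx2 (by linarith)
  have t1 := tilt_le Q.a Q.b Q'.a Q'.b Q.unit Q'.unit
  have t2 := tilt_le Q'.a Q'.b Q.a Q.b Q'.unit Q.unit
  have e : (Q'.a * Q.a + Q'.b * Q.b) * (-Q'.b * Q.a + Q'.a * Q.b)
      = -((Q.a * Q'.a + Q.b * Q'.b) * (-Q.b * Q'.a + Q.a * Q'.b)) := by ring
  rw [e, abs_neg] at t2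
  unfold USq.g
  rw [abs_le]
  constructor <;> linarith

end H282R3.SQ
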