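import Pool.Agent.H282R3.SQ.Defs

namespace H282R3.SQ

open MeasureTheory

/-- H5 (module Main), with the needed lemmas as hypotheses. -/
theorem main_ineq_of (n N : ℕ) (Q : Fin N → USq) (h : Cov n Q)
    (hlines : (n : ℝ) * (n + 1) ≤ N + 2 * ∑ i, (Q i).g ^ 2)
    (hfield : ∃ t : ℤ × ℤ → ℝ, (∀ c, 0 ≤ t c) ∧ (∀ c, ¬ Inside n c → t c = 0) ∧
      (∀ c, |t (c.1 + 1, c.2) - t c| ≤ C0 * (om n Q c + om n Q (c.1 + 1, c.2))) ∧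
      (∀ c, |t (c.1, c.2 + 1) - t c| ≤ C0 * (om n Q c + om n Q (c.1, c.2 + 1))) ∧
      (∀ i, om n Q (⌊(Q i).p⌋, ⌊(Q i).q⌋) ≤ 1 / 100 →
        |(Q i).g - t (⌊(Q i).p⌋, ⌊(Q i).q⌋)| ≤ C0 * om n Q (⌊(Q i).p⌋, ⌊(Q i).q⌋)))
    (henergy : ∀ (t : ℤ × ℤ → ℝ) 
      (_ : ∀ c, 0 ≤ t c) (_ : ∀ c, ¬ Inside n c → t c = 0) 
      (_ : ∀ i, om n Q (⌊(Q i).p⌋, ⌊(Q i).q⌋) ≤ 1 / 100 →
        |(Q i).g - t (⌊(Q i).p⌋, ⌊(Q i).q⌋)| ≤ C0 * om n Q (⌊(Q i).p⌋, ⌊(Q i).q⌋)),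
      ∑ i, (Q i).g ^ 2 ≤
        164 * ∑ c ∈ Finset.Icc (-1 : ℤ) n ×ˢ Finset.Icc (-1 : ℤ) n, t c ^ 2 +
          162 * C0 ^ 2 * ((N : ℝ) - (n : ℝ) ^ 2))
    (hsob : ∀ (t : ℤ × ℤ → ℝ) (_ : ∀ c, 0 ≤ t c) (_ : ∀ c, ¬ Inside n c → t c = 0),
      ∑ c ∈ Finset.Icc (-1 : ℤ) n ×ˢ Finset.Icc (-1 : ℤ) n, t c ^ 2 ≤
        1 / 4 * (∑ c ∈ Finset.Icc (-1 : ℤ) n ×ˢ Finset.Icc (-1 : ℤ) n, |t (c.1 + 1, c.2) - t c|) *
          (∑ c ∈ Finset.Icc (-1 : ℤ) n ×ˢ Finset.Icc (-1 : ℤ) n, |t (c.1, c.2 + 1) - t c|))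
    (hsum : ∀ Z : Finset (ℤ × ℤ), ∑ z ∈ Z, om n Q z ≤ 81 * ((N : ℝ) - (n : ℝ) ^ 2)) :
    (n : ℝ) ≤ ((N : ℝ) - (n : ℝ) ^ 2) + 2 * (164 * (81 * C0 * ((N : ℝ) - (n : ℝ) ^ 2)) ^ 2 +
      162 * C0 ^ 2 * ((N : ℝ) - (n : ℝ) ^ 2)) := by
  obtain ⟨t, ht0, hsupp, h1, h2, h3⟩ := hfield
  have hE := henergy t ht0 hsupp h3
  have hS := hsob t ht0 hsupp
  set Box : Finset (ℤ × ℤ) := Finset.Icc (-1 : ℤ) n ×ˢ Finset.Icc (-1 : ℤ) n with hBox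
  set k : ℝ := (N : ℝ) - (n : ℝ) ^ 2 with hk
  have hC0 : (0 : ℝ) ≤ C0 := by unfold C0; positivity
  have hH : ∑ c ∈ Box, |t (c.1 + 1, c.2) - t c| ≤ C0 * (162 * k) := by
    calc ∑ c ∈ Box, |t (c.1 + 1, c.2) - t c|
        ≤ ∑ c ∈ Box, C0 * (om n Q c + om n Q (c.1 + 1, c.2)) := Finset.sum_le_sum fun c _ => h1 c
      _ = C0 * (∑ c ∈ Box, om n Q c + ∑ c ∈ Box, om n Q (c.1 + 1, c.2)) := by
          rw [← Finset.mul_sum, Finset.sum_add_distrib]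
      _ ≤ C0 * (81 * k + 81 * k) := by
          refine mul_le_mul_of_nonneg_left (add_le_add (hsum _) ?_) hC0
          have := hsum (Box.image fun c : ℤ × ℤ => (c.1 + 1, c.2))
          rwa [Finset.sum_image (by
            intro a _ b _ hab
            simp only [Prod.mk.injEq] at hab
            exact Prod.ext (by omega) hab.2)] at this
      _ = C0 * (162 * k) := by ring
  have hV : ∑ c ∈ Box, |t (c.1, c.2 + 1) - t c| ≤ C0 * (162 * k) := by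
    calc ∑ c ∈ Box, |t (c.1, c.2 + 1) - t c|
        ≤ ∑ c ∈ Box, C0 * (om n Q c + om n Q (c.1, c.2 + 1)) := Finset.sum_le_sum fun c _ => h2 c
      _ = C0 * (∑ c ∈ Box, om n Q c + ∑ c ∈ Box, om n Q (c.1, c.2 + 1)) := by
          rw [← Finset.mul_sum, Finset.sum_add_distrib]
      _ ≤ C0 * (81 * k + 81 * k) := by
          refine mul_le_mul_of_nonneg_left (add_le_add (hsum _) ?_) hC0
          have := hsum (Box.image fun c : ℤ × ℤ => (c.1, c.2 + 1))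
          rwa [Finset.sum_image (by
            intro a _ b _ hab
            simp only [Prod.mk.injEq] at hab
            exact Prod.ext hab.1 (by omega))] at this
      _ = C0 * (162 * k) := by ring
  have hH0 : 0 ≤ ∑ c ∈ Box, |t (c.1 + 1, c.2) - t c| := Finset.sum_nonneg fun _ _ => abs_nonneg _
  have hV0 : 0 ≤ ∑ c ∈ Box, |t (c.1, c.2 + 1) - t c| := Finset.sum_nonneg fun _ _ => abs_nonneg _
  have hprod := mul_le_mul hH hV hV0 (hH0.trans hH)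
  have hS' : ∑ c ∈ Box, t c ^ 2 ≤ (81 * C0 * k) ^ 2 := by
    calc ∑ c ∈ Box, t c ^ 2 ≤ 1 / 4 * (∑ c ∈ Box, |t (c.1 + 1, c.2) - t c|) *
          (∑ c ∈ Box, |t (c.1, c.2 + 1) - t c|) := hS
      _ = 1 / 4 * ((∑ c ∈ Box, |t (c.1 + 1, c.2) - t c|) *
          (∑ c ∈ Box, |t (c.1, c.2 + 1) - t c|)) := by ring
      _ ≤ 1 / 4 * ((C0 * (162 * k)) * (C0 * (162 * k))) := by gcongr
      _ = (81 * C0 * k) ^ 2 := by ring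
  have hN : (N : ℝ) = k + (n : ℝ) ^ 2 := by rw [hk]; ring
  rw [hN] at hlines
  nlinarith [hlines, hE, hS']

end H282R3.SQ
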