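import Pool.Agent.H282R3.SQ.Waste

/-! Overlap lemmas in the window (module of project SQ). -/

namespace H282R3.SQ

open MeasureTheory


theorem R_eq (z : ℤ × ℤ) : R z = ⋃ c ∈ win z, cell c := by
  ext x
  simp only [Set.mem_iUnion, mem_cell_iff, exists_prop, exists_eq_right]
  simp only [R, win, Set.mem_ofPred_eq, Finset.mem_product, Finset.mem_Icc]
  constructor
  · rintro ⟨h1, h2, h3, h4⟩
    refine ⟨⟨?_, ?_⟩, ?_, ?_⟩
    · exact Int.le_floor.2 (by push_cast; linarith)
    · exact Int.lt_add_one_iff.1 (Int.floor_lt.2 (by push_cast; linarith))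
    · exact Int.le_floor.2 (by push_cast; linarith)
    · exact Int.lt_add_one_iff.1 (Int.floor_lt.2 (by push_cast; linarith))
  · rintro ⟨⟨h1, h2⟩, h3, h4⟩
    have a1 := Int.le_floor.1 h1
    have a2 := Int.floor_lt.1 (Int.lt_add_one_iff.2 h2)
    have a3 := Int.le_floor.1 h3
    have a4 := Int.floor_lt.1 (Int.lt_add_one_iff.2 h4)
    push_cast at a1 a2 a3 a4
    exact ⟨by linarith, by linarith, by linarith, by linarith⟩

theorem pair_le_w (n : ℕ) {N : ℕ} (Q : Fin N → USq) (h : Cov n Q) (c : ℤ × ℤ) (i j : Fin N)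
    (hij : i ≠ j) : volume.real ((Q i).C ∩ (Q j).C ∩ cell c) ≤ w n Q c := by
  classical
  rw [w_eq]
  by_cases hc : Inside n c
  · rw [if_pos hc]
    set D : Fin N → Set (ℝ × ℝ) := fun l =>
      if l = j then ((Q j).C ∩ cell c) \ (Q i).C else (Q l).C ∩ cell c with hD
    have hDsub : ∀ l, D l ⊆ cell c := by
      intro l
      simp only [hD]
      split_ifs
      · exact fun x hx => hx.1.2
      · exact fun x hx => hx.2
    have h1 : (1 : ℝ) ≤ ∑ l, volume.real (D l) := by
      calc (1 : ℝ) = volume.real (cell c) := (realcell c).symm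
        _ ≤ volume.real (⋃ l, D l) := by
            refine measureReal_mono ?_ ?_
            · intro z hz
              obtain ⟨l, hl⟩ := cell_sub n Q h c hc z hz
              by_cases hlj : l = j
              · subst hlj
                by_cases hzi : z ∈ (Q i).C
                · refine Set.mem_iUnion.2 ⟨i, ?_⟩
                  simp only [hD, if_neg hij]
                  exact ⟨hzi, hz⟩
                · refine Set.mem_iUnion.2 ⟨l, ?_⟩
                  simp only [hD, if_true]
                  exact ⟨⟨hl, hz⟩, hzi⟩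
              · refine Set.mem_iUnion.2 ⟨l, ?_⟩
                simp only [hD, if_neg hlj]
                exact ⟨hl, hz⟩
            · exact measure_ne_top_of_subset (s := cell c)
                (Set.iUnion_subset hDsub) (cell_ne_top c)
        _ ≤ _ := measureReal_iUnion_fintype_le _
    have h2 : ∑ l, volume.real ((Q l).C ∩ cell c) =
        ∑ l, volume.real (D l) + volume.real ((Q i).C ∩ (Q j).C ∩ cell c) := by
      have h3 : ∀ l, volume.real ((Q l).C ∩ cell c) = volume.real (D l) +
          (if l = j then volume.real ((Q i).C ∩ (Q j).C ∩ cell c) else 0) := by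
        intro l
        by_cases hlj : l = j
        · subst hlj
          simp only [hD, if_true]
          have := measureReal_inter_add_sdiff (μ := volume) (s := (Q l).C ∩ cell c)
            (measurableSet_C (Q i)) (capC_ne_top _ _)
          rw [← this, add_comm]
          congr 2
          ext x
          simp only [Set.mem_inter_iff]
          tauto
        · simp only [hD, if_neg hlj, add_zero]
      rw [Finset.sum_congr rfl fun l _ => h3 l, Finset.sum_add_distrib, Finset.sum_ite_eq']
      simp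
    linarith
  · rw [if_neg hc, sub_zero]
    calc volume.real ((Q i).C ∩ (Q j).C ∩ cell c) ≤ volume.real ((Q i).C ∩ cell c) :=
          measureReal_mono (fun x hx => ⟨hx.1.1, hx.2⟩) (capC_ne_top _ _)
      _ ≤ _ := Finset.single_le_sum (f := fun l => volume.real ((Q l).C ∩ cell c))
          (fun l _ => measureReal_nonneg) (Finset.mem_univ i)

/-- F4 (module Overlap). -/
theorem overlap_orig (n : ℕ) {N : ℕ} (Q : Fin N → USq) (h : Cov n Q) (z : ℤ × ℤ) (i j : Fin N)
    (hij : i ≠ j) (hi : (Q i).C ⊆ R z) : 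
    (volume ((Q i).C ∩ (Q j).C)).toReal ≤ om n Q z := by
  change volume.real ((Q i).C ∩ (Q j).C) ≤ om n Q z
  have hsub : (Q i).C ∩ (Q j).C ⊆ ⋃ c ∈ win z, ((Q i).C ∩ (Q j).C ∩ cell c) := by
    intro x hx
    have := hi hx.1
    rw [R_eq] at this
    simp only [Set.mem_iUnion] at this ⊢
    obtain ⟨c, hc, hxc⟩ := this
    exact ⟨c, hc, hx, hxc⟩
  calc volume.real ((Q i).C ∩ (Q j).C)
      ≤ volume.real (⋃ c ∈ win z, ((Q i).C ∩ (Q j).C ∩ cell c)) := by
        refine measureReal_mono hsub ?_
        refine measure_ne_top_of_subset (s := (Q i).C) ?_ (volC_ne_top _)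
        exact Set.iUnion₂_subset fun c _ x hx => hx.1.1
    _ ≤ ∑ c ∈ win z, volume.real ((Q i).C ∩ (Q j).C ∩ cell c) :=
        measureReal_biUnion_finset_le _ _
    _ ≤ _ := Finset.sum_le_sum fun c _ => pair_le_w n Q h c i j hij

theorem gridSq_C (c : ℤ × ℤ) :
    (gridSq c).C = Set.Icc (c.1 : ℝ) (c.1 + 1) ×ˢ Set.Icc (c.2 : ℝ) (c.2 + 1) := by
  ext z
  simp only [USq.C, USq.X, USq.Y, gridSq, Set.mem_ofPred_eq, Set.mem_prod, Set.mem_Icc, abs_le]
  constructor
  · rintro ⟨⟨h1, h2⟩, h3, h4⟩
    exact ⟨⟨by linarith, by linarith⟩, by linarith, by linarith⟩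
  · rintro ⟨⟨h1, h2⟩, h3, h4⟩
    exact ⟨⟨by linarith, by linarith⟩, by linarith, by linarith⟩

theorem gridSq_ae (c : ℤ × ℤ) : (gridSq c).C =ᵐ[volume] cell c := by
  rw [gridSq_C, cell_eq, Measure.volume_eq_prod]
  exact Measure.set_prod_ae_eq Ico_ae_eq_Icc.symm Ico_ae_eq_Icc.symm

/-- F5 (module Overlap). -/
theorem overlap_cell (n : ℕ) {N : ℕ} (Q : Fin N → USq) (h : Cov n Q) (z : ℤ × ℤ) (i : Fin N)
    (c : ℤ × ℤ) (hc : c ∈ win z) (hout : ¬ Inside n c) :
    (volume ((Q i).C ∩ (gridSq c).C)).toReal ≤ om n Q z := by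
  have h1 : volume ((Q i).C ∩ (gridSq c).C) = volume ((Q i).C ∩ cell c) :=
    measure_congr (ae_eq_set_inter (ae_eq_refl _) (gridSq_ae c))
  rw [h1]
  calc volume.real ((Q i).C ∩ cell c) ≤ ∑ l, volume.real ((Q l).C ∩ cell c) :=
        Finset.single_le_sum (f := fun l => volume.real ((Q l).C ∩ cell c))
          (fun l _ => measureReal_nonneg) (Finset.mem_univ i)
    _ = w n Q c := by rw [w_eq, if_neg hout, sub_zero]
    _ ≤ _ := Finset.single_le_sum (f := fun c => w n Q c) (fun c _ => w_nonneg n Q h c) hc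

/-- F6 (module Overlap). -/
theorem overlap_cells (c c' : ℤ × ℤ) (hc : c ≠ c') :
    (volume ((gridSq c).C ∩ (gridSq c').C)).toReal = 0 := by
  have h1 : volume ((gridSq c).C ∩ (gridSq c').C) = volume (cell c ∩ cell c') :=
    measure_congr (ae_eq_set_inter (gridSq_ae c) (gridSq_ae c'))
  rw [h1, (cell_disjoint hc).inter_eq, measure_empty]
  rfl

/-- F7 (module Overlap). Number of squares inside the window plus number of outside cells. -/
theorem count_le (n : ℕ) {N : ℕ} (Q : Fin N → USq) (h : Cov n Q) (z : ℤ × ℤ) 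
    (I : Finset (Fin N)) (hI : ∀ i ∈ I, (Q i).C ⊆ R z) :
    (I.card : ℝ) + ((win z).filter fun c => ¬ Inside n c).card ≤ 81 + om n Q z := by
  have h1 : om n Q z = ∑ i, ∑ c ∈ win z, volume.real ((Q i).C ∩ cell c) -
      ∑ c ∈ win z, (if Inside n c then (1 : ℝ) else 0) := by
    rw [Finset.sum_comm, ← Finset.sum_sub_distrib]
    rfl
  have h2 : ∑ c ∈ win z, (if Inside n c then (1 : ℝ) else 0) =
      ((win z).filter fun c => Inside n c).card := by
    rw [← Finset.sum_filter, Finset.sum_const]
    simp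
  have h3 : ((win z).filter fun c => Inside n c).card +
      ((win z).filter fun c => ¬ Inside n c).card = 81 := by
    rw [Finset.card_filter_add_card_filter_not]
    simp only [win, Finset.card_product, Int.card_Icc]
    have e1 : (z.1 + 4 + 1 - (z.1 - 4)).toNat = 9 := by
      have : z.1 + 4 + 1 - (z.1 - 4) = 9 := by ring
      rw [this]; rfl
    have e2 : (z.2 + 4 + 1 - (z.2 - 4)).toNat = 9 := by
      have : z.2 + 4 + 1 - (z.2 - 4) = 9 := by ring
      rw [this]; rfl
    rw [e1, e2]
  have h4 : (I.card : ℝ) ≤ ∑ i, ∑ c ∈ win z, volume.real ((Q i).C ∩ cell c) := by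
    calc (I.card : ℝ) = ∑ i ∈ I, (1 : ℝ) := by simp
      _ = ∑ i ∈ I, ∑ c ∈ win z, volume.real ((Q i).C ∩ cell c) := by
          refine Finset.sum_congr rfl fun i hi => ?_
          rw [sum_cells, ← R_eq, Set.inter_eq_left.2 (hI i hi), realC]
      _ ≤ _ := Finset.sum_le_sum_of_subset_of_nonneg (Finset.subset_univ _)
          fun i _ _ => Finset.sum_nonneg fun c _ => measureReal_nonneg
  have h5 : (((win z).filter fun c => Inside n c).card : ℝ) +
      ((win z).filter fun c => ¬ Inside n c).card = 81 := by exact_mod_cast h3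
  rw [h1, h2]
  linarith

end H282R3.SQ
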