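import Pool.Agent.H282R3.SQ.Defs

/-! Task I3: shrinking a covering by closed squares. -/

namespace H282R3.SQ

/-- I3 (module Scale). Shrinking a covering by closed squares gives a covering by open squares. -/
theorem scale' (hiso : ∀ (A : Set Plane), IsUnitSquare A →
      ∃ Q : USq, ∀ z : Plane, z ∈ A ↔ (z 0, z 1) ∈ Q.C)
    (n m : ℕ) (hn : 1 ≤ n) (ε : ℝ) (hε : 0 < ε) (h : CanCover (n + ε) m) :
    ∃ Q : Fin m → USq, Cov n Q := by
  obtain ⟨A, hA, hcov⟩ := h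
  choose Q hQ using fun i => hiso (A i) (hA i)
  have hn0 : (0 : ℝ) < n := by exact_mod_cast hn
  set lam : ℝ := n / (n + ε) with hlam
  have hlam0 : 0 < lam := by positivity
  have hlam1 : lam < 1 := by
    rw [hlam, div_lt_one (by positivity)]
    linarith
  refine ⟨fun i => ⟨lam * (Q i).p, lam * (Q i).q, (Q i).a, (Q i).b, (Q i).unit⟩, ?_⟩
  intro x y hx0 hx1 hy0 hy1
  have hdiv : ∀ u : ℝ, u ≤ n → u / lam ≤ n + ε := by
    intro u hu
    rw [div_le_iff₀ hlam0, hlam, mul_div_assoc', mul_comm, mul_div_assoc, div_self (by positivity),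
      mul_one]
    exact hu
  have hz : (!₂[x / lam, y / lam] : Plane) ∈ square (n + ε) := by
    intro i
    fin_cases i
    · exact ⟨div_nonneg hx0 hlam0.le, hdiv x hx1⟩
    · exact ⟨div_nonneg hy0 hlam0.le, hdiv y hy1⟩
  obtain ⟨i, hi⟩ := Set.mem_iUnion.1 (hcov hz)
  rw [hQ i] at hi
  refine ⟨i, ?_⟩
  obtain ⟨h1, h2⟩ : |(Q i).X (x / lam, y / lam)| ≤ 1 / 2 ∧ |(Q i).Y (x / lam, y / lam)| ≤ 1 / 2 := hi
  have e1 : USq.X ⟨lam * (Q i).p, lam * (Q i).q, (Q i).a, (Q i).b, (Q i).unit⟩ (x, y) =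
      lam * (Q i).X (x / lam, y / lam) := by
    unfold USq.X
    field_simp
  have e2 : USq.Y ⟨lam * (Q i).p, lam * (Q i).q, (Q i).a, (Q i).b, (Q i).unit⟩ (x, y) =
      lam * (Q i).Y (x / lam, y / lam) := by
    unfold USq.Y
    field_simp
  constructor
  · rw [e1, abs_mul, abs_of_pos hlam0]
    nlinarith [abs_nonneg ((Q i).X (x / lam, y / lam))]
  · rw [e2, abs_mul, abs_of_pos hlam0]
    nlinarith [abs_nonneg ((Q i).Y (x / lam, y / lam))]

end H282R3.SQ
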