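import Mathlib
import Pool.Agent.H282R3.SQ.Defs

namespace H282R3.SQ

open MeasureTheory

namespace SobolevAux

theorem sum_Icc (n : ℕ) (h : ℤ → ℝ) :
    ∑ x ∈ Finset.Icc (-1 : ℤ) n, h x = ∑ j ∈ Finset.range (n + 2), h ((j : ℤ) - 1) := by
  refine Finset.sum_nbij' (fun x => (x + 1).toNat) (fun j => (j : ℤ) - 1) ?_ ?_ ?_ ?_ ?_
  · intro x hx
    rw [Finset.mem_Icc] at hx
    rw [Finset.mem_range]
    omega
  · intro j hj
    rw [Finset.mem_range] at hj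
    rw [Finset.mem_Icc]
    constructor <;> omega
  · intro x hx
    rw [Finset.mem_Icc] at hx
    omega
  · intro j _
    omega
  · intro x hx
    rw [Finset.mem_Icc] at hx
    congr 1
    omega

theorem two_abs_le (n : ℕ) (f : ℤ → ℝ) (h0 : f (-1) = 0) (h1 : f (n + 1) = 0) (x : ℤ)
    (hx : x ∈ Finset.Icc (-1 : ℤ) n) :
    2 * |f x| ≤ ∑ y ∈ Finset.Icc (-1 : ℤ) n, |f (y + 1) - f y| := by
  rw [Finset.mem_Icc] at hx
  rw [sum_Icc]
  obtain ⟨m, rfl⟩ : ∃ m : ℕ, x = (m : ℤ) - 1 := ⟨(x + 1).toNat, by omega⟩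
  have hm : m ≤ n + 2 := by omega
  have a1 := dist_le_Ico_sum_dist (fun j : ℕ => f ((j : ℤ) - 1)) (Nat.zero_le m)
  have a2 := dist_le_Ico_sum_dist (fun j : ℕ => f ((j : ℤ) - 1)) hm
  have a3 := Finset.sum_Ico_consecutive
    (fun i : ℕ => dist (f ((i : ℤ) - 1)) (f (((i + 1 : ℕ) : ℤ) - 1))) (Nat.zero_le m) hm
  have e1 : f (((0 : ℕ) : ℤ) - 1) = 0 := by
    simpa using h0
  have e2 : f (((n + 2 : ℕ) : ℤ) - 1) = 0 := by
    rw [← h1]
    congr 1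
    push_cast
    ring
  simp only [e1, e2] at a1 a2
  rw [Real.dist_eq, zero_sub, abs_neg] at a1
  rw [Real.dist_eq, sub_zero] at a2
  have e3 : ∑ j ∈ Finset.range (n + 2), |f ((j : ℤ) - 1 + 1) - f ((j : ℤ) - 1)| =
      ∑ i ∈ Finset.Ico 0 (n + 2), dist (f ((i : ℤ) - 1)) (f (((i + 1 : ℕ) : ℤ) - 1)) := by
    rw [Finset.range_eq_Ico]
    refine Finset.sum_congr rfl fun j _ => ?_
    rw [Real.dist_eq, abs_sub_comm]
    congr 3
    push_cast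
    ring
  rw [e3, ← a3]
  linarith

end SobolevAux

open SobolevAux in
/-- G (module Sobolev). -/
theorem sobolev (n : ℕ) (t : ℤ × ℤ → ℝ) (ht : ∀ c, 0 ≤ t c) (hsupp : ∀ c, ¬ Inside n c → t c = 0) :
    ∑ c ∈ Finset.Icc (-1 : ℤ) n ×ˢ Finset.Icc (-1 : ℤ) n, t c ^ 2 ≤
      1 / 4 * (∑ c ∈ Finset.Icc (-1 : ℤ) n ×ˢ Finset.Icc (-1 : ℤ) n, |t (c.1 + 1, c.2) - t c|) *
        (∑ c ∈ Finset.Icc (-1 : ℤ) n ×ˢ Finset.Icc (-1 : ℤ) n, |t (c.1, c.2 + 1) - t c|) := by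
  set I := Finset.Icc (-1 : ℤ) n with hI
  set A : ℤ → ℝ := fun y => ∑ x ∈ I, |t (x + 1, y) - t (x, y)| with hA
  set B : ℤ → ℝ := fun x => ∑ y ∈ I, |t (x, y + 1) - t (x, y)| with hB
  have hA0 : ∀ y, 0 ≤ A y := fun y => Finset.sum_nonneg fun x _ => abs_nonneg _
  have k1 : ∀ x ∈ I, ∀ y, 2 * t (x, y) ≤ A y := by
    intro x hx y
    have := two_abs_le n (fun x => t (x, y)) (hsupp _ (by unfold Inside; simp only; omega))
      (hsupp _ (by unfold Inside; simp only; omega)) x hx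
    simp only [abs_of_nonneg (ht (x, y))] at this
    exact this
  have k2 : ∀ y ∈ I, ∀ x, 2 * t (x, y) ≤ B x := by
    intro y hy x
    have := two_abs_le n (fun y => t (x, y)) (hsupp _ (by unfold Inside; simp only; omega))
      (hsupp _ (by unfold Inside; simp only; omega)) y hy
    simp only [abs_of_nonneg (ht (x, y))] at this
    exact this
  have e1 : ∑ c ∈ I ×ˢ I, |t (c.1 + 1, c.2) - t c| = ∑ y ∈ I, A y := by
    rw [Finset.sum_product_right]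
  have e2 : ∑ c ∈ I ×ˢ I, |t (c.1, c.2 + 1) - t c| = ∑ x ∈ I, B x := by
    rw [Finset.sum_product]
  rw [e1, e2]
  have e3 : 1 / 4 * (∑ y ∈ I, A y) * (∑ x ∈ I, B x) = ∑ c ∈ I ×ˢ I, 1 / 4 * (A c.2 * B c.1) := by
    rw [← Finset.mul_sum, Finset.sum_product, mul_assoc, Finset.sum_mul_sum, Finset.sum_comm]
  rw [e3]
  refine Finset.sum_le_sum fun c hc => ?_
  rw [Finset.mem_product] at hc
  have a1 := k1 c.1 hc.1 c.2
  have a2 := k2 c.2 hc.2 c.1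
  have a3 := ht c
  have a4 := mul_le_mul a1 a2 (by linarith [ht (c.1, c.2)]) (hA0 c.2)
  have e4 : t (c.1, c.2) = t c := rfl
  rw [e4] at a4
  nlinarith
end H282R3.SQ
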