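import Pool.Agent.H282R3.SQ.Defs

/-! STUBS (statements only; every proof goes into its own module). -/

namespace H282R3.SQ

open MeasureTheory

/-- A1 (module Chord). -/
theorem chord_sum (Q : USq) (n : ℕ) :
    ∑ j ∈ Finset.range (n + 1), (volume {x : ℝ | (x, (j : ℝ)) ∈ Q.O}).toReal ≤ 1 + 2 * Q.g ^ 2 := by
  sorry

/-- A2 (module Lines). -/
theorem lines (n N : ℕ) (Q : Fin N → USq) (h : Cov n Q) :
    (n : ℝ) * (n + 1) ≤ N + 2 * ∑ i, (Q i).g ^ 2 := by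
  sorry

/-- B (module Link). Two points of the side `X = 1/2` of `Q`, at distance at least `ℓ`, both in `Q'`,
and all triangles in the intersection small: the tilts are close. -/
theorem link (Q Q' : USq) (τ ℓ : ℝ) (hℓ : 0 < ℓ)
    (htri : ∀ z1 z2 z3 : ℝ × ℝ, z1 ∈ Q.C ∩ Q'.C → z2 ∈ Q.C ∩ Q'.C → z3 ∈ Q.C ∩ Q'.C →
      |det3 z1 z2 z3| ≤ τ)
    (z1 z2 : ℝ × ℝ) (h1 : z1 ∈ Q.C ∩ Q'.C) (h2 : z2 ∈ Q.C ∩ Q'.C)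
    (hx1 : Q.X z1 = 1 / 2) (hx2 : Q.X z2 = 1 / 2) (hy : ℓ ≤ |Q.Y z1 - Q.Y z2|) :
    |Q.g - Q'.g| ≤ 2 * τ / ℓ ^ 2 := by
  sorry

/-- C1 (module Contact). A point within distance `1/4` of the centre of `A` is in no other square. -/
theorem centre_free (A B : USq) (τ : ℝ) (hτ0 : 0 ≤ τ) (hτ : τ < 1 / 16)
    (htri : ∀ z1 z2 z3 : ℝ × ℝ, z1 ∈ A.C ∩ B.C → z2 ∈ A.C ∩ B.C → z3 ∈ A.C ∩ B.C →
      |det3 z1 z2 z3| ≤ τ)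
    (x : ℝ × ℝ) (hx : (x.1 - A.p) ^ 2 + (x.2 - A.q) ^ 2 ≤ 1 / 16) : x ∉ B.C := by
  sorry

/-- C2 (module Contact). The contact lemma. -/
theorem contact {ι : Type*} [Fintype ι] (F : ι → USq) (S : Set (ℝ × ℝ)) (hS : Convex ℝ S)
    (hcov : ∀ x ∈ S, ∃ i, x ∈ (F i).C) (τ : ℝ) (hτ0 : 0 ≤ τ) (hτ : τ < 1 / 16)
    (htri : ∀ i j, i ≠ j → ∀ z1 z2 z3 : ℝ × ℝ, z1 ∈ (F i).C ∩ (F j).C →
      z2 ∈ (F i).C ∩ (F j).C → z3 ∈ (F i).C ∩ (F j).C → |det3 z1 z2 z3| ≤ τ)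
    (T : Set ι) (A B : ι) (hA : A ∈ T) (hB : B ∉ T) (hAS : (F A).C ⊆ S) (hBS : (F B).C ⊆ S)
    (v : ℝ × ℝ) (hv : v.1 ^ 2 + v.2 ^ 2 = 1)
    (hperp : v.1 * ((F B).p - (F A).p) + v.2 * ((F B).q - (F A).q) = 0)
    (s : ℝ) (hs : |s| ≤ 1 / 4) :
    ∃ i ∈ T, ∃ j ∉ T, ∃ σ : Fin 4, ∃ z : ℝ × ℝ, z ∈ (F i).C ∧ z ∈ (F j).C ∧
      (USq.rot^[(σ : ℕ)] (F j)).X z = 1 / 2 ∧
      v.1 * (z.1 - (F A).p) + v.2 * (z.2 - (F A).q) = s := by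
  sorry

/-- D1 (module Cluster): pigeonhole + link: between the two classes there is a pair with close tilts. -/
theorem close_pair {ι : Type*} [Fintype ι] (M : ℕ) (hM : Fintype.card ι ≤ M)
    (F : ι → USq) (S : Set (ℝ × ℝ)) (hS : Convex ℝ S)
    (hcov : ∀ x ∈ S, ∃ i, x ∈ (F i).C) (τ : ℝ) (hτ0 : 0 ≤ τ) (hτ : τ < 1 / 16)
    (htri : ∀ i j, i ≠ j → ∀ z1 z2 z3 : ℝ × ℝ, z1 ∈ (F i).C ∩ (F j).C →
      z2 ∈ (F i).C ∩ (F j).C → z3 ∈ (F i).C ∩ (F j).C → |det3 z1 z2 z3| ≤ τ)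
    (T : Set ι) (A B : ι) (hA : A ∈ T) (hB : B ∉ T) (hAS : (F A).C ⊆ S) (hBS : (F B).C ⊆ S) :
    ∃ i ∈ T, ∃ j ∉ T, |(F i).g - (F j).g| ≤ 128 * (M : ℝ) ^ 4 * τ := by
  sorry

/-- D2 (module Cluster). The cluster lemma. -/
theorem cluster {ι : Type*} [Fintype ι] (M : ℕ) (hM : Fintype.card ι ≤ M)
    (F : ι → USq) (S : Set (ℝ × ℝ)) (hS : Convex ℝ S)
    (hcov : ∀ x ∈ S, ∃ i, x ∈ (F i).C) (τ : ℝ) (hτ0 : 0 ≤ τ) (hτ : τ < 1 / 16)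
    (htri : ∀ i j, i ≠ j → ∀ z1 z2 z3 : ℝ × ℝ, z1 ∈ (F i).C ∩ (F j).C →
      z2 ∈ (F i).C ∩ (F j).C → z3 ∈ (F i).C ∩ (F j).C → |det3 z1 z2 z3| ≤ τ)
    (A B : ι) (hAS : (F A).C ⊆ S) (hBS : (F B).C ⊆ S) :
    |(F A).g - (F B).g| ≤ 128 * (M : ℝ) ^ 5 * τ := by
  sorry

/-- E1 (module Area). -/
theorem volume_C (Q : USq) : volume Q.C = 1 := by
  sorry

/-- E2 (module Area). -/
theorem convex_C (Q : USq) : Convex ℝ Q.C := by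
  sorry

/-- E3 (module Area). -/
theorem measurableSet_C (Q : USq) : MeasurableSet Q.C := by
  sorry

/-- E4 (module Area). -/
theorem tri_area (S : Set (ℝ × ℝ)) (hS : Convex ℝ S) (hfin : volume S ≠ ⊤)
    (z1 z2 z3 : ℝ × ℝ) (h1 : z1 ∈ S) (h2 : z2 ∈ S) (h3 : z3 ∈ S) :
    |det3 z1 z2 z3| ≤ 4 * (volume S).toReal := by
  sorry

/-- F1 (module Waste). -/
theorem w_nonneg (n : ℕ) {N : ℕ} (Q : Fin N → USq) (h : Cov n Q) (c : ℤ × ℤ) : 0 ≤ w n Q c := by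
  sorry

/-- F2 (module Waste). -/
theorem sum_w_le (n : ℕ) {N : ℕ} (Q : Fin N → USq) (h : Cov n Q) (Z : Finset (ℤ × ℤ)) :
    ∑ c ∈ Z, w n Q c ≤ (N : ℝ) - (n : ℝ) ^ 2 := by
  sorry

/-- F3 (module Waste). -/
theorem sum_om_le (n : ℕ) {N : ℕ} (Q : Fin N → USq) (h : Cov n Q) (Z : Finset (ℤ × ℤ)) :
    ∑ z ∈ Z, om n Q z ≤ 81 * ((N : ℝ) - (n : ℝ) ^ 2) := by
  sorry

/-- F4 (module Overlap). -/
theorem overlap_orig (n : ℕ) {N : ℕ} (Q : Fin N → USq) (h : Cov n Q) (z : ℤ × ℤ) (i j : Fin N)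
    (hij : i ≠ j) (hi : (Q i).C ⊆ R z) : 
    (volume ((Q i).C ∩ (Q j).C)).toReal ≤ om n Q z := by
  sorry

/-- F5 (module Overlap). -/
theorem overlap_cell (n : ℕ) {N : ℕ} (Q : Fin N → USq) (h : Cov n Q) (z : ℤ × ℤ) (i : Fin N)
    (c : ℤ × ℤ) (hc : c ∈ win z) (hout : ¬ Inside n c) :
    (volume ((Q i).C ∩ (gridSq c).C)).toReal ≤ om n Q z := by
  sorry

/-- F6 (module Overlap). -/
theorem overlap_cells (c c' : ℤ × ℤ) (hc : c ≠ c') :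
    (volume ((gridSq c).C ∩ (gridSq c').C)).toReal = 0 := by
  sorry

/-- F7 (module Overlap). Number of squares inside the window plus number of outside cells. -/
theorem count_le (n : ℕ) {N : ℕ} (Q : Fin N → USq) (h : Cov n Q) (z : ℤ × ℤ) 
    (I : Finset (Fin N)) (hI : ∀ i ∈ I, (Q i).C ⊆ R z) :
    (I.card : ℝ) + ((win z).filter fun c => ¬ Inside n c).card ≤ 81 + om n Q z := by
  sorry

/-- G (module Sobolev). -/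
theorem sobolev (n : ℕ) (t : ℤ × ℤ → ℝ) (ht : ∀ c, 0 ≤ t c) (hsupp : ∀ c, ¬ Inside n c → t c = 0) :
    ∑ c ∈ Finset.Icc (-1 : ℤ) n ×ˢ Finset.Icc (-1 : ℤ) n, t c ^ 2 ≤
      1 / 4 * (∑ c ∈ Finset.Icc (-1 : ℤ) n ×ˢ Finset.Icc (-1 : ℤ) n, |t (c.1 + 1, c.2) - t c|) *
        (∑ c ∈ Finset.Icc (-1 : ℤ) n ×ˢ Finset.Icc (-1 : ℤ) n, |t (c.1, c.2 + 1) - t c|) := by
  sorry

/-- H1 (module Window). Two squares of the covering inside the `5 × 5` block of a good cell. -/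
theorem orig_orig (n : ℕ) {N : ℕ} (Q : Fin N → USq) (h : Cov n Q) (z : ℤ × ℤ)
    (hz : om n Q z ≤ 1 / 100) (i j : Fin N) (hi : (Q i).C ⊆ K z) (hj : (Q j).C ⊆ K z) :
    |(Q i).g - (Q j).g| ≤ C0 * om n Q z := by
  sorry

/-- H2 (module Window). A square of the covering and an outside cell. -/
theorem orig_cell (n : ℕ) {N : ℕ} (Q : Fin N → USq) (h : Cov n Q) (z : ℤ × ℤ)
    (hz : om n Q z ≤ 1 / 100) (i : Fin N) (hi : (Q i).C ⊆ K z) (c : ℤ × ℤ)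
    (hc : (gridSq c).C ⊆ K z) (hout : ¬ Inside n c) :
    (Q i).g ≤ C0 * om n Q z := by
  sorry

/-- H3 (module Field). The tilt field. -/
theorem exists_field (n : ℕ) {N : ℕ} (Q : Fin N → USq) (h : Cov n Q) :
    ∃ t : ℤ × ℤ → ℝ, (∀ c, 0 ≤ t c) ∧ (∀ c, ¬ Inside n c → t c = 0) ∧
      (∀ c, |t (c.1 + 1, c.2) - t c| ≤ C0 * (om n Q c + om n Q (c.1 + 1, c.2))) ∧
      (∀ c, |t (c.1, c.2 + 1) - t c| ≤ C0 * (om n Q c + om n Q (c.1, c.2 + 1))) ∧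
      (∀ i, om n Q (⌊(Q i).p⌋, ⌊(Q i).q⌋) ≤ 1 / 100 →
        |(Q i).g - t (⌊(Q i).p⌋, ⌊(Q i).q⌋)| ≤ C0 * om n Q (⌊(Q i).p⌋, ⌊(Q i).q⌋)) := by
  sorry

/-- H4 (module Energy). -/
theorem energy (n : ℕ) {N : ℕ} (Q : Fin N → USq) (h : Cov n Q) (t : ℤ × ℤ → ℝ)
    (ht0 : ∀ c, 0 ≤ t c) (hsupp : ∀ c, ¬ Inside n c → t c = 0) 
    (ht : ∀ i, om n Q (⌊(Q i).p⌋, ⌊(Q i).q⌋) ≤ 1 / 100 →
        |(Q i).g - t (⌊(Q i).p⌋, ⌊(Q i).q⌋)| ≤ C0 * om n Q (⌊(Q i).p⌋, ⌊(Q i).q⌋)) :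
    ∑ i, (Q i).g ^ 2 ≤
      164 * ∑ c ∈ Finset.Icc (-1 : ℤ) n ×ˢ Finset.Icc (-1 : ℤ) n, t c ^ 2 +
        162 * C0 ^ 2 * ((N : ℝ) - (n : ℝ) ^ 2) := by
  sorry

/-- H5 (module Main). -/
theorem main_ineq (n N : ℕ) (Q : Fin N → USq) (h : Cov n Q) :
    (n : ℝ) ≤ ((N : ℝ) - (n : ℝ) ^ 2) + 2 * (164 * (81 * C0 * ((N : ℝ) - (n : ℝ) ^ 2)) ^ 2 +
      162 * C0 ^ 2 * ((N : ℝ) - (n : ℝ) ^ 2)) := by
  sorry

/-- I1 (module Iso). Every unit square is a `USq`. -/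
theorem exists_USq (A : Set Plane) (hA : IsUnitSquare A) :
    ∃ Q : USq, ∀ z : Plane, z ∈ A ↔ (z 0, z 1) ∈ Q.C := by
  sorry

/-- I2 (module Grid). Finitely many unit squares suffice. -/
theorem exists_cover (s : ℝ) : ∃ m, CanCover s m := by
  sorry

/-- I3 (module Scale). Shrinking a covering by closed squares gives a covering by open squares. -/
theorem scale (n m : ℕ) (hn : 1 ≤ n) (ε : ℝ) (hε : 0 < ε) (h : CanCover (n + ε) m) :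
    ∃ Q : Fin m → USq, Cov n Q := by
  sorry

/-- I4 (module Final). -/
theorem final_result :
    (∀ n : ℕ, ∃ δ : ℝ, 0 < δ ∧ ∀ ε : ℝ, 0 < ε → ε ≤ δ → Nc (n + ε) = P n) ∧
      ∃ c : ℝ, 0 < c ∧ ∀ n : ℕ, 1 ≤ n → c * Real.sqrt n ≤ (P n : ℝ) - (n : ℝ) ^ 2 := by
  sorry

end H282R3.SQ
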