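import Pool.Agent.H282R3.SQ.Area

/-! Waste: nonnegativity and total (module of project SQ). -/

namespace H282R3.SQ

open MeasureTheory


theorem cell_eq (c : ℤ × ℤ) :
    cell c = Set.Ico (c.1 : ℝ) (c.1 + 1) ×ˢ Set.Ico (c.2 : ℝ) (c.2 + 1) := by
  ext z
  simp only [cell, Set.mem_ofPred_eq, Set.mem_prod, Set.mem_Ico]
  tauto

theorem measurableSet_cell (c : ℤ × ℤ) : MeasurableSet (cell c) := by
  rw [cell_eq]
  exact measurableSet_Ico.prod measurableSet_Ico

theorem volume_cell (c : ℤ × ℤ) : volume (cell c) = 1 := by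
  rw [cell_eq, Measure.volume_eq_prod, Measure.prod_prod, Real.volume_Ico, Real.volume_Ico]
  norm_num

theorem mem_cell_iff (c : ℤ × ℤ) (z : ℝ × ℝ) : z ∈ cell c ↔ c = (⌊z.1⌋, ⌊z.2⌋) := by
  simp only [cell, Set.mem_ofPred_eq]
  constructor
  · rintro ⟨h1, h2, h3, h4⟩
    ext
    · exact (Int.floor_eq_iff.2 ⟨h1, h2⟩).symm
    · exact (Int.floor_eq_iff.2 ⟨h3, h4⟩).symm
  · rintro rfl
    exact ⟨Int.floor_le _, Int.lt_floor_add_one _, Int.floor_le _, Int.lt_floor_add_one _⟩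

theorem cell_disjoint {c c' : ℤ × ℤ} (h : c ≠ c') : Disjoint (cell c) (cell c') := by
  rw [Set.disjoint_left]
  intro z h1 h2
  rw [mem_cell_iff] at h1 h2
  exact h (h1.trans h2.symm)

theorem cell_sub (n : ℕ) {N : ℕ} (Q : Fin N → USq) (h : Cov n Q) (c : ℤ × ℤ) (hc : Inside n c) :
    ∀ z ∈ cell c, ∃ i, z ∈ (Q i).C := by
  rintro ⟨x, y⟩ ⟨h1, h2, h3, h4⟩
  obtain ⟨c1, c2, c3, c4⟩ := hc
  simp only at h1 h2 h3 h4
  have e1 : (0 : ℝ) ≤ c.1 := by exact_mod_cast c1
  have e2 : (c.1 : ℝ) + 1 ≤ n := by exact_mod_cast c2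
  have e3 : (0 : ℝ) ≤ c.2 := by exact_mod_cast c3
  have e4 : (c.2 : ℝ) + 1 ≤ n := by exact_mod_cast c4
  obtain ⟨i, hi⟩ := h x y (by linarith) (by linarith) (by linarith) (by linarith)
  exact ⟨i, hi.1.le, hi.2.le⟩

theorem w_eq (n : ℕ) {N : ℕ} (Q : Fin N → USq) (c : ℤ × ℤ) :
    w n Q c = ∑ i, volume.real ((Q i).C ∩ cell c) - if Inside n c then 1 else 0 := rfl

theorem volC_ne_top (Q : USq) : volume Q.C ≠ ⊤ := by
  rw [volume_C]; exact ENNReal.one_ne_top

theorem cell_ne_top (c : ℤ × ℤ) : volume (cell c) ≠ ⊤ := by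
  rw [volume_cell]; exact ENNReal.one_ne_top

theorem realC (Q : USq) : volume.real Q.C = 1 := by
  rw [measureReal_def, volume_C]; rfl

theorem realcell (c : ℤ × ℤ) : volume.real (cell c) = 1 := by
  rw [measureReal_def, volume_cell]; rfl

theorem capC_ne_top (Q : USq) (S : Set (ℝ × ℝ)) : volume (Q.C ∩ S) ≠ ⊤ :=
  measure_ne_top_of_subset Set.inter_subset_left (volC_ne_top Q)

/-- F1 (module Waste). -/
theorem w_nonneg (n : ℕ) {N : ℕ} (Q : Fin N → USq) (h : Cov n Q) (c : ℤ × ℤ) : 0 ≤ w n Q c := by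
  rw [w_eq]
  by_cases hc : Inside n c
  · rw [if_pos hc, sub_nonneg]
    calc (1 : ℝ) = volume.real (cell c) := (realcell c).symm
      _ ≤ volume.real (⋃ i, (Q i).C ∩ cell c) := by
          refine measureReal_mono ?_ ?_
          · intro z hz
            obtain ⟨i, hi⟩ := cell_sub n Q h c hc z hz
            exact Set.mem_iUnion.2 ⟨i, hi, hz⟩
          · exact measure_ne_top_of_subset (s := cell c)
              (Set.iUnion_subset fun i => Set.inter_subset_right) (cell_ne_top c)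
      _ ≤ _ := measureReal_iUnion_fintype_le _
  · rw [if_neg hc, sub_zero]
    exact Finset.sum_nonneg fun i _ => measureReal_nonneg

theorem sum_cells (Q : USq) (Z : Finset (ℤ × ℤ)) :
    ∑ c ∈ Z, volume.real (Q.C ∩ cell c) = volume.real (Q.C ∩ ⋃ c ∈ Z, cell c) := by
  rw [Set.inter_iUnion₂]
  refine (measureReal_biUnion_finset ?_ ?_ ?_).symm
  · intro c _ c' _ hcc
    exact (cell_disjoint hcc).mono Set.inter_subset_right Set.inter_subset_right
  · intro c _
    exact (measurableSet_C Q).inter (measurableSet_cell c)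
  · intro c _
    exact capC_ne_top Q _

theorem sum_cells_le (Q : USq) (Z : Finset (ℤ × ℤ)) :
    ∑ c ∈ Z, volume.real (Q.C ∩ cell c) ≤ 1 := by
  rw [sum_cells, ← realC Q]
  exact measureReal_mono Set.inter_subset_left (volC_ne_top Q)

/-- F2 (module Waste). -/
theorem sum_w_le (n : ℕ) {N : ℕ} (Q : Fin N → USq) (h : Cov n Q) (Z : Finset (ℤ × ℤ)) :
    ∑ c ∈ Z, w n Q c ≤ (N : ℝ) - (n : ℝ) ^ 2 := by
  classical
  set B : Finset (ℤ × ℤ) := Finset.Ico (0 : ℤ) n ×ˢ Finset.Ico (0 : ℤ) n with hB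
  have hBi : ∀ c, Inside n c ↔ c ∈ B := by
    intro c
    simp only [hB, Inside, Finset.mem_product, Finset.mem_Ico]
    tauto
  calc ∑ c ∈ Z, w n Q c ≤ ∑ c ∈ Z ∪ B, w n Q c :=
        Finset.sum_le_sum_of_subset_of_nonneg Finset.subset_union_left
          fun c _ _ => w_nonneg n Q h c
    _ = ∑ i, ∑ c ∈ Z ∪ B, volume.real ((Q i).C ∩ cell c) -
          ∑ c ∈ Z ∪ B, (if Inside n c then (1 : ℝ) else 0) := by
        rw [Finset.sum_comm, ← Finset.sum_sub_distrib]
        rfl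
    _ ≤ ∑ i : Fin N, (1 : ℝ) - (n : ℝ) ^ 2 := by
        refine sub_le_sub (Finset.sum_le_sum fun i _ => sum_cells_le _ _) (le_of_eq ?_)
        rw [← Finset.sum_filter, Finset.sum_const]
        have : (Z ∪ B).filter (fun c => Inside n c) = B := by
          ext c
          simp only [Finset.mem_filter, Finset.mem_union, hBi]
          tauto
        rw [this, hB, Finset.card_product]
        simp [pow_two]
    _ = _ := by simp

/-- F3 (module Waste). -/
theorem sum_om_le (n : ℕ) {N : ℕ} (Q : Fin N → USq) (h : Cov n Q) (Z : Finset (ℤ × ℤ)) :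
    ∑ z ∈ Z, om n Q z ≤ 81 * ((N : ℝ) - (n : ℝ) ^ 2) := by
  classical
  set D : Finset (ℤ × ℤ) := Finset.Icc (-4 : ℤ) 4 ×ˢ Finset.Icc (-4 : ℤ) 4 with hD
  have key : ∀ z, om n Q z = ∑ d ∈ D, w n Q (z + d) := by
    intro z
    unfold om
    have hwin : win z = D.image (fun d => z + d) := by
      ext c
      simp only [win, hD, Finset.mem_image, Finset.mem_product, Finset.mem_Icc]
      constructor
      · intro hc
        exact ⟨c - z, by simp only [Prod.fst_sub, Prod.snd_sub]; omega, by simp⟩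
      · rintro ⟨d, hd, rfl⟩
        simp only [Prod.fst_add, Prod.snd_add]
        omega
    rw [hwin, Finset.sum_image]
    intro a _ b _ hab
    exact add_left_cancel hab
  calc ∑ z ∈ Z, om n Q z = ∑ d ∈ D, ∑ z ∈ Z, w n Q (z + d) := by
        rw [Finset.sum_comm]
        exact Finset.sum_congr rfl fun z _ => key z
    _ = ∑ d ∈ D, ∑ c ∈ Z.image (fun z => z + d), w n Q c := by
        refine Finset.sum_congr rfl fun d _ => ?_
        rw [Finset.sum_image]
        intro a _ b _ hab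
        exact add_right_cancel hab
    _ ≤ ∑ d ∈ D, ((N : ℝ) - (n : ℝ) ^ 2) := Finset.sum_le_sum fun d _ => sum_w_le n Q h _
    _ = _ := by
        rw [Finset.sum_const, hD]
        simp

end H282R3.SQ
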