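import Pool.Agent.H282R3.SQ.Defs

/-!
Project SQ (MP_1fa752_co), module Window: two squares of the covering inside the `5 × 5` block of a
good cell have close tilts.
-/

namespace H282R3.SQ.Win

open MeasureTheory

/-- `w_nonneg` (module Waste) as a proposition -/
def WNonneg : Prop := ∀ (n : ℕ) {N : ℕ} (Q : Fin N → USq) (_ : Cov n Q) (c : ℤ × ℤ), 0 ≤ w n Q c

/-- `cluster` (module Cluster) as a proposition -/
def Cluster : Prop := ∀ {ι : Type} [Fintype ι] (M : ℕ) (_ : Fintype.card ι ≤ M)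
    (F : ι → USq) (S : Set (ℝ × ℝ)) (_ : Convex ℝ S)
    (_ : ∀ x ∈ S, ∃ i, x ∈ (F i).C) (τ : ℝ) (_ : 0 ≤ τ) (_ : τ < 1 / 16)
    (_ : ∀ i j, i ≠ j → ∀ z1 z2 z3 : ℝ × ℝ, z1 ∈ (F i).C ∩ (F j).C →
      z2 ∈ (F i).C ∩ (F j).C → z3 ∈ (F i).C ∩ (F j).C → |det3 z1 z2 z3| ≤ τ)
    (A B : ι) (_ : (F A).C ⊆ S) (_ : (F B).C ⊆ S),
    |(F A).g - (F B).g| ≤ 128 * (M : ℝ) ^ 5 * τ

/-- `volume_C`, `convex_C`, `tri_area` (module Area) as a proposition -/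
def Area : Prop := (∀ Q : USq, volume Q.C = 1) ∧ (∀ Q : USq, Convex ℝ Q.C) ∧
  ∀ (S : Set (ℝ × ℝ)) (_ : Convex ℝ S) (_ : volume S ≠ ⊤)
    (z1 z2 z3 : ℝ × ℝ) (_ : z1 ∈ S) (_ : z2 ∈ S) (_ : z3 ∈ S),
    |det3 z1 z2 z3| ≤ 4 * (volume S).toReal

/-- the statements of module Overlap as a proposition -/
def Overlap : Prop :=
  (∀ (n : ℕ) {N : ℕ} (Q : Fin N → USq) (_ : Cov n Q) (z : ℤ × ℤ) (i j : Fin N)
    (_ : i ≠ j) (_ : (Q i).C ⊆ R z), (volume ((Q i).C ∩ (Q j).C)).toReal ≤ om n Q z) ∧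
  (∀ (n : ℕ) {N : ℕ} (Q : Fin N → USq) (_ : Cov n Q) (z : ℤ × ℤ) (i : Fin N)
    (c : ℤ × ℤ) (_ : c ∈ win z) (_ : ¬ Inside n c),
    (volume ((Q i).C ∩ (gridSq c).C)).toReal ≤ om n Q z) ∧
  (∀ (c c' : ℤ × ℤ) (_ : c ≠ c'), (volume ((gridSq c).C ∩ (gridSq c').C)).toReal = 0) ∧
  (∀ (n : ℕ) {N : ℕ} (Q : Fin N → USq) (_ : Cov n Q) (z : ℤ × ℤ)
    (I : Finset (Fin N)) (_ : ∀ i ∈ I, (Q i).C ⊆ R z),
    (I.card : ℝ) + ((win z).filter fun c => ¬ Inside n c).card ≤ 81 + om n Q z)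

open Classical in
/-- the family of all squares of the covering inside the window and all outside cells -/
noncomputable def Fam (n : ℕ) {N : ℕ} (Q : Fin N → USq) (z : ℤ × ℤ) :
    ({i : Fin N // (Q i).C ⊆ R z} ⊕ {c : ℤ × ℤ // c ∈ (win z).filter fun c => ¬ Inside n c}) → USq :=
  Sum.elim (fun i => Q i.1) (fun c => gridSq c.1)

theorem coord_lt (Q : USq) (x y : ℝ × ℝ) (hx : x ∈ Q.C) (hy : y ∈ Q.C) :
    |y.1 - x.1| < 3 / 2 ∧ |y.2 - x.2| < 3 / 2 := by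
  obtain ⟨hx1, hx2⟩ := hx
  obtain ⟨hy1, hy2⟩ := hy
  rw [abs_le] at hx1 hx2 hy1 hy2
  have hu := Q.unit
  have e : (y.1 - x.1) ^ 2 + (y.2 - x.2) ^ 2 =
      (Q.X y - Q.X x) ^ 2 + (Q.Y y - Q.Y x) ^ 2 := by
    have : (Q.X y - Q.X x) ^ 2 + (Q.Y y - Q.Y x) ^ 2 =
        (Q.a ^ 2 + Q.b ^ 2) * ((y.1 - x.1) ^ 2 + (y.2 - x.2) ^ 2) := by
      unfold USq.X USq.Y; ring
    rw [this, hu, one_mul]
  have b1 : (Q.X y - Q.X x) ^ 2 ≤ 1 := by
    rw [sq_le_one_iff_abs_le_one, abs_le]; constructor <;> linarith [hx1.1, hx1.2, hy1.1, hy1.2]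
  have b2 : (Q.Y y - Q.Y x) ^ 2 ≤ 1 := by
    rw [sq_le_one_iff_abs_le_one, abs_le]; constructor <;> linarith [hx2.1, hx2.2, hy2.1, hy2.2]
  constructor
  · apply abs_lt_of_sq_lt_sq _ (by norm_num)
    nlinarith [sq_nonneg (y.2 - x.2)]
  · apply abs_lt_of_sq_lt_sq _ (by norm_num)
    nlinarith [sq_nonneg (y.1 - x.1)]

theorem K_sub_R (z : ℤ × ℤ) : K z ⊆ R z := by
  rintro x ⟨h1, h2, h3, h4⟩
  exact ⟨by linarith, by linarith, by linarith, by linarith⟩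

theorem convex_K (z : ℤ × ℤ) : Convex ℝ (K z) := by
  have : K z = Set.Icc ((z.1 : ℝ) - 2) (z.1 + 3) ×ˢ Set.Icc ((z.2 : ℝ) - 2) (z.2 + 3) := by
    ext x
    simp only [K, Set.mem_ofPred_eq, Set.mem_prod, Set.mem_Icc]
    tauto
  rw [this]
  exact (convex_Icc _ _).prod (convex_Icc _ _)

theorem gridSq_g (c : ℤ × ℤ) : (gridSq c).g = 0 := by
  simp [gridSq, USq.g]

theorem mem_gridSq {c : ℤ × ℤ} {x : ℝ × ℝ} (h1 : (c.1 : ℝ) ≤ x.1) (h2 : x.1 ≤ c.1 + 1)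
    (h3 : (c.2 : ℝ) ≤ x.2) (h4 : x.2 ≤ c.2 + 1) : x ∈ (gridSq c).C := by
  constructor
  · rw [abs_le]
    simp only [gridSq, USq.X]
    constructor <;> linarith
  · rw [abs_le]
    simp only [gridSq, USq.Y]
    constructor <;> linarith

theorem cover_K (n : ℕ) {N : ℕ} (Q : Fin N → USq) (h : Cov n Q) (z : ℤ × ℤ) :
    ∀ x ∈ K z, ∃ i, x ∈ (Fam n Q z i).C := by
  classical
  rintro x ⟨h1, h2, h3, h4⟩
  by_cases hx : (0 ≤ x.1 ∧ x.1 ≤ n) ∧ (0 ≤ x.2 ∧ x.2 ≤ n)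
  · obtain ⟨i, hi⟩ := h x.1 x.2 hx.1.1 hx.1.2 hx.2.1 hx.2.2
    have hxC : x ∈ (Q i).C := ⟨hi.1.le, hi.2.le⟩
    refine ⟨Sum.inl ⟨i, ?_⟩, hxC⟩
    intro y hy
    obtain ⟨k1, k2⟩ := coord_lt (Q i) x y hxC hy
    rw [abs_lt] at k1 k2
    exact ⟨by linarith, by linarith, by linarith, by linarith⟩
  · refine ⟨Sum.inr ⟨(⌊x.1⌋, ⌊x.2⌋), ?_⟩, ?_⟩
    · rw [Finset.mem_filter]
      constructor
      · unfold win
        rw [Finset.mem_product, Finset.mem_Icc, Finset.mem_Icc]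
        refine ⟨⟨?_, ?_⟩, ⟨?_, ?_⟩⟩
        · exact Int.le_floor.2 (by push_cast; linarith)
        · have : ⌊x.1⌋ < z.1 + 4 := Int.floor_lt.2 (by push_cast; linarith)
          exact this.le
        · exact Int.le_floor.2 (by push_cast; linarith)
        · have : ⌊x.2⌋ < z.2 + 4 := Int.floor_lt.2 (by push_cast; linarith)
          exact this.le
      · rintro ⟨g1, g2, g3, g4⟩
        apply hx
        refine ⟨⟨?_, ?_⟩, ⟨?_, ?_⟩⟩
        · have := Int.le_floor.1 g1; simpa using this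
        · have := Int.floor_lt.1 g2; push_cast at this; exact this.le
        · have := Int.le_floor.1 g3; simpa using this
        · have := Int.floor_lt.1 g4; push_cast at this; exact this.le
    · exact mem_gridSq (Int.floor_le _) (Int.lt_floor_add_one _).le (Int.floor_le _)
        (Int.lt_floor_add_one _).le

theorem om_nonneg (Hw : WNonneg) (n : ℕ) {N : ℕ} (Q : Fin N → USq) (h : Cov n Q) (z : ℤ × ℤ) :
    0 ≤ om n Q z :=
  Finset.sum_nonneg fun c _ => Hw n Q h c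

theorem fam_card (Ho : Overlap) (n : ℕ) {N : ℕ} (Q : Fin N → USq) (h : Cov n Q) (z : ℤ × ℤ)
    (hz : om n Q z ≤ 1 / 100)
    [Fintype ({i : Fin N // (Q i).C ⊆ R z} ⊕
      {c : ℤ × ℤ // c ∈ (win z).filter fun c => ¬ Inside n c})] :
    Fintype.card ({i : Fin N // (Q i).C ⊆ R z} ⊕
      {c : ℤ × ℤ // c ∈ (win z).filter fun c => ¬ Inside n c}) ≤ 81 := by
  classical
  have h1 := Ho.2.2.2 n Q h z (Finset.univ.filter fun i => (Q i).C ⊆ R z)
    (fun i hi => (Finset.mem_filter.1 hi).2)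
  have h2 : Fintype.card ({i : Fin N // (Q i).C ⊆ R z} ⊕
      {c : ℤ × ℤ // c ∈ (win z).filter fun c => ¬ Inside n c}) =
      (Finset.univ.filter fun i => (Q i).C ⊆ R z).card +
        ((win z).filter fun c => ¬ Inside n c).card := by
    rw [← Nat.card_eq_fintype_card, Nat.card_sum, Nat.card_eq_fintype_card,
      Nat.card_eq_fintype_card, Fintype.card_subtype, Fintype.card_coe]
  rw [h2]
  have h3 : (((Finset.univ.filter fun i => (Q i).C ⊆ R z).card +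
        ((win z).filter fun c => ¬ Inside n c).card : ℕ) : ℝ) < 82 := by
    push_cast
    linarith
  have h4 : (Finset.univ.filter fun i => (Q i).C ⊆ R z).card +
        ((win z).filter fun c => ¬ Inside n c).card < 82 := by exact_mod_cast h3
  omega

theorem fam_tri (Hw : WNonneg) (Ha : Area) (Ho : Overlap) (n : ℕ) {N : ℕ} (Q : Fin N → USq) (h : Cov n Q) (z : ℤ × ℤ) :
    ∀ i j, i ≠ j → ∀ z1 z2 z3 : ℝ × ℝ, z1 ∈ (Fam n Q z i).C ∩ (Fam n Q z j).C →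
      z2 ∈ (Fam n Q z i).C ∩ (Fam n Q z j).C → z3 ∈ (Fam n Q z i).C ∩ (Fam n Q z j).C →
      |det3 z1 z2 z3| ≤ 4 * om n Q z := by
  classical
  intro i j hij z1 z2 z3 h1 h2 h3
  have hfin : volume ((Fam n Q z i).C ∩ (Fam n Q z j).C) ≠ ⊤ := by
    refine ne_top_of_le_ne_top (b := 1) ENNReal.one_ne_top ?_
    rw [← Ha.1 (Fam n Q z i)]
    exact measure_mono Set.inter_subset_left
  have ht := Ha.2.2 _ ((Ha.2.1 (Fam n Q z i)).inter (Ha.2.1 (Fam n Q z j))) hfin z1 z2 z3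
    h1 h2 h3
  have hv : (volume ((Fam n Q z i).C ∩ (Fam n Q z j).C)).toReal ≤ om n Q z := by
    rcases i with i | c <;> rcases j with j | c'
    · exact Ho.1 n Q h z i.1 j.1 (fun e => hij (by rw [Subtype.ext e])) i.2
    · exact Ho.2.1 n Q h z i.1 c'.1 (Finset.mem_filter.1 c'.2).1 (Finset.mem_filter.1 c'.2).2
    · rw [Set.inter_comm]
      exact Ho.2.1 n Q h z j.1 c.1 (Finset.mem_filter.1 c.2).1 (Finset.mem_filter.1 c.2).2
    · have := Ho.2.2.1 c.1 c'.1 (fun e => hij (by rw [Subtype.ext e]))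
      have e2 : (volume ((Fam n Q z (Sum.inr c)).C ∩ (Fam n Q z (Sum.inr c')).C)).toReal = 0 :=
        this
      rw [e2]
      exact om_nonneg Hw n Q h z
  linarith

theorem fam_close (Hw : WNonneg) (Hc : Cluster) (Ha : Area) (Ho : Overlap) (n : ℕ) {N : ℕ} (Q : Fin N → USq) (h : Cov n Q) (z : ℤ × ℤ)
    (hz : om n Q z ≤ 1 / 100)
    (A B : {i : Fin N // (Q i).C ⊆ R z} ⊕
      {c : ℤ × ℤ // c ∈ (win z).filter fun c => ¬ Inside n c})
    (hA : (Fam n Q z A).C ⊆ K z) (hB : (Fam n Q z B).C ⊆ K z) :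
    |(Fam n Q z A).g - (Fam n Q z B).g| ≤ C0 * om n Q z := by
  classical
  have h0 := om_nonneg Hw n Q h z
  have := Hc 81 (fam_card Ho n Q h z hz) (Fam n Q z) (K z) (convex_K z) (cover_K n Q h z)
    (4 * om n Q z) (by linarith) (by linarith) (fam_tri Hw Ha Ho n Q h z) A B hA hB
  refine this.trans (le_of_eq ?_)
  unfold C0
  push_cast
  ring

/-- H1 (module Window). Two squares of the covering inside the `5 × 5` block of a good cell. -/
theorem orig_orig (Hw : WNonneg) (Hc : Cluster) (Ha : Area) (Ho : Overlap) (n : ℕ) {N : ℕ} (Q : Fin N → USq) (h : Cov n Q) (z : ℤ × ℤ)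
    (hz : om n Q z ≤ 1 / 100) (i j : Fin N) (hi : (Q i).C ⊆ K z) (hj : (Q j).C ⊆ K z) :
    |(Q i).g - (Q j).g| ≤ C0 * om n Q z :=
  fam_close Hw Hc Ha Ho n Q h z hz (Sum.inl ⟨i, hi.trans (K_sub_R z)⟩) (Sum.inl ⟨j, hj.trans (K_sub_R z)⟩) hi hj

/-- H2 (module Window). A square of the covering and an outside cell. -/
theorem orig_cell (Hw : WNonneg) (Hc : Cluster) (Ha : Area) (Ho : Overlap) (n : ℕ) {N : ℕ} (Q : Fin N → USq) (h : Cov n Q) (z : ℤ × ℤ)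
    (hz : om n Q z ≤ 1 / 100) (i : Fin N) (hi : (Q i).C ⊆ K z) (c : ℤ × ℤ)
    (hc : (gridSq c).C ⊆ K z) (hout : ¬ Inside n c) :
    (Q i).g ≤ C0 * om n Q z := by
  classical
  have hm : c ∈ (win z).filter fun c => ¬ Inside n c := by
    rw [Finset.mem_filter]
    refine ⟨?_, hout⟩
    have hcen : ((c.1 : ℝ) + 1 / 2, (c.2 : ℝ) + 1 / 2) ∈ K z :=
      hc (mem_gridSq (by simp) (by simp only; linarith) (by simp) (by simp only; linarith))
    obtain ⟨k1, k2, k3, k4⟩ := hcen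
    simp only at k1 k2 k3 k4
    unfold win
    rw [Finset.mem_product, Finset.mem_Icc, Finset.mem_Icc]
    refine ⟨⟨?_, ?_⟩, ⟨?_, ?_⟩⟩
    · have : (z.1 : ℝ) - 4 ≤ c.1 := by linarith
      exact_mod_cast this
    · have : (c.1 : ℝ) ≤ z.1 + 4 := by linarith
      exact_mod_cast this
    · have : (z.2 : ℝ) - 4 ≤ c.2 := by linarith
      exact_mod_cast this
    · have : (c.2 : ℝ) ≤ z.2 + 4 := by linarith
      exact_mod_cast this
  have := fam_close Hw Hc Ha Ho n Q h z hz (Sum.inl ⟨i, hi.trans (K_sub_R z)⟩) (Sum.inr ⟨c, hm⟩) hi hc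
  have e : (Fam n Q z (Sum.inr ⟨c, hm⟩)).g = 0 := gridSq_g c
  rw [e, sub_zero] at this
  exact (le_abs_self _).trans this

end H282R3.SQ.Win
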